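import Pool.Agent.Run7.h802.FH.HypMain

/-! Project FH, piece CLS. -/

set_option autoImplicit false

namespace Pool.Agent.Run7.h802.FH

open MvPolynomial Pool.Agent.Run7.h802.HP

theorem bf_oneB {k : Type} [Field k] (g : ℕ) :
    bf (D := g + 1) (fun i : Fin (g + 2) => ((oneB g i : ℤ) : k)) = X 0 ^ (g + 1) := by
  unfold bf
  rw [Finset.sum_eq_single (0 : Fin (g + 1 + 1))]
  · simp [oneB]
  · intro b _ hb
    have : (b : ℕ) ≠ 0 := fun h => hb (Fin.ext h)
    simp [oneB, this]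
  · intro h
    exact absurd (Finset.mem_univ _) h

theorem sum_three {k : Type} [Field k] {n : ℕ} (u v w : ℤ) (i₁ i₂ i₃ : Fin n) (T : Fin n → k) :
    ∑ j, ((((if j = i₁ then u else 0) + (if j = i₂ then v else 0) +
      (if j = i₃ then w else 0) : ℤ)) : k) * T j = u * T i₁ + v * T i₂ + w * T i₃ := by
  push_cast
  simp only [add_mul, ite_mul, zero_mul, Finset.sum_add_distrib, Finset.sum_ite_eq',
    Finset.mem_univ, if_true]

/-- The coefficient vector with three entries. -/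
def three {n : ℕ} (u v w : ℤ) (i₁ i₂ i₃ : Fin n) (j : Fin n) : ℤ :=
  (if j = i₁ then u else 0) + (if j = i₂ then v else 0) + (if j = i₃ then w else 0)

section

variable {k : Type} [Field k] {D : ℕ} (u v w : ℤ) (i₁ i₂ i₃ : Fin (D + 1)) (x : Fin 2 → k)

theorem ev0 : eval x (bf fun j => ((three u v w i₁ i₂ i₃ j : ℤ) : k)) =
    u * (x 1 ^ (i₁ : ℕ) * x 0 ^ (D - (i₁ : ℕ))) + v * (x 1 ^ (i₂ : ℕ) * x 0 ^ (D - (i₂ : ℕ))) +
      w * (x 1 ^ (i₃ : ℕ) * x 0 ^ (D - (i₃ : ℕ))) := by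
  rw [eval_bf, ← sum_three u v w i₁ i₂ i₃ fun j => x 1 ^ (j : ℕ) * x 0 ^ (D - (j : ℕ))]
  refine Finset.sum_congr rfl fun j _ => ?_
  unfold three
  ring

theorem ev1 : eval x (pderiv 1 (bf fun j => ((three u v w i₁ i₂ i₃ j : ℤ) : k))) =
    u * (((i₁ : ℕ) : k) * x 1 ^ ((i₁ : ℕ) - 1) * x 0 ^ (D - (i₁ : ℕ))) +
    v * (((i₂ : ℕ) : k) * x 1 ^ ((i₂ : ℕ) - 1) * x 0 ^ (D - (i₂ : ℕ))) +
    w * (((i₃ : ℕ) : k) * x 1 ^ ((i₃ : ℕ) - 1) * x 0 ^ (D - (i₃ : ℕ))) := by
  rw [eval_pderiv_one, ← sum_three u v w i₁ i₂ i₃ fun j =>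
    ((j : ℕ) : k) * x 1 ^ ((j : ℕ) - 1) * x 0 ^ (D - (j : ℕ))]
  refine Finset.sum_congr rfl fun j _ => ?_
  unfold three
  ring

theorem ev2 : eval x (pderiv 0 (bf fun j => ((three u v w i₁ i₂ i₃ j : ℤ) : k))) =
    u * (((D - (i₁ : ℕ) : ℕ) : k) * x 1 ^ (i₁ : ℕ) * x 0 ^ (D - (i₁ : ℕ) - 1)) +
    v * (((D - (i₂ : ℕ) : ℕ) : k) * x 1 ^ (i₂ : ℕ) * x 0 ^ (D - (i₂ : ℕ) - 1)) +
    w * (((D - (i₃ : ℕ) : ℕ) : k) * x 1 ^ (i₃ : ℕ) * x 0 ^ (D - (i₃ : ℕ) - 1)) := by
  rw [eval_pderiv_zero, ← sum_three u v w i₁ i₂ i₃ fun j =>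
    ((D - (j : ℕ) : ℕ) : k) * x 1 ^ (j : ℕ) * x 0 ^ (D - (j : ℕ) - 1)]
  refine Finset.sum_congr rfl fun j _ => ?_
  unfold three
  ring

end

theorem ext2 {k : Type} [Field k] {x : Fin 2 → k} (h0 : x 0 = 0) (h1 : x 1 = 0) : x = 0 := by
  funext i
  fin_cases i
  · exact h0
  · exact h1

theorem t_CLS (g : ℕ) (hg : 1 ≤ g) (l : ℕ) (hl : l.Prime) :
    ∃ p : Fin (2 * g + 3) → ℤ, GoodB (oneB g) p l := by
  by_cases hl2 : l = 2
  · subst hl2
    refine ⟨three (n := 2 * g + 2 + 1) 1 0 0 ⟨2 * g + 1, by omega⟩ 0 0, ?_⟩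
    intro k _ _ x y hx hs
    obtain ⟨h1, h2, h3⟩ := hs
    have c2 : (2 : k) = 0 := by
      have := CharP.cast_eq_zero k 2
      exact_mod_cast this
    rw [bf_oneB] at h2
    simp only [map_pow, eval_X, c2, zero_mul, zero_add] at h2
    have hx0 : x 0 = 0 := pow_eq_zero_iff (by omega) |>.1 h2
    have h30 := h3 0
    rw [bf_oneB, ev2 (D := 2 * g + 2)] at h30
    have e1 : 2 * g + 2 - (2 * g + 1) = 1 := by omega
    simp only [pderiv_pow, pderiv_X_self, map_mul, map_pow, eval_X, hx0, e1] at h30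
    have e2 : (0 : k) ^ (g + 1 - 1) = 0 := zero_pow (by omega)
    simp only [e2] at h30
    apply hx
    apply ext2 hx0
    simpa using h30.symm
  · -- `l` odd
    obtain ⟨u, hu⟩ : ∃ u : ℤ, (l : ℤ) ∣ 4 * u - 1 := by
      have hodd : l % 2 = 1 := (hl.eq_two_or_odd).resolve_left hl2
      have hcop : IsCoprime (4 : ℤ) (l : ℤ) := by
        have h5 : Nat.Coprime 4 l := by
          have : Nat.Coprime (2 ^ 2) l :=
            Nat.Coprime.pow_left 2 ((Nat.coprime_primes Nat.prime_two hl).2 (Ne.symm hl2))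
          exact this
        exact_mod_cast Nat.isCoprime_iff_coprime.2 h5
      obtain ⟨a, b, hab⟩ := hcop
      refine ⟨a, -b, ?_⟩
      linear_combination hab
    have hu' : ∀ (k : Type) [Field k] [CharP k l], (4 : k) * (u : k) = 1 := by
      intro k _ _
      have h6 : ((4 * u - 1 : ℤ) : k) = 0 := (CharP.intCast_eq_zero_iff k l _).2 hu
      push_cast at h6
      linear_combination h6
    by_cases hlg : l ∣ 2 * g + 2
    · refine ⟨three (n := 2 * g + 2 + 1) u u (-u) ⟨2 * g + 1, by omega⟩ ⟨1, by omega⟩ 0, ?_⟩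
      intro k _ _ x y hx hs
      have h2k := two_ne (k := k) l hl hl2
      have hu4 := hu' k
      have hg2 : (2 * (g : k) + 2) = 0 := by
        have := (CharP.cast_eq_zero_iff k l (2 * g + 2)).2 hlg
        push_cast at this
        exact this
      obtain ⟨h1, h2, h3⟩ := hs
      have h30 := h3 0
      have h31 := h3 1
      rw [bf_oneB, ev0 (D := 2 * g + 2)] at h1
      rw [bf_oneB] at h2
      rw [bf_oneB, ev2 (D := 2 * g + 2)] at h30
      rw [bf_oneB, ev1 (D := 2 * g + 2)] at h31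
      have e1 : 2 * g + 2 - (2 * g + 1) = 1 := by omega
      have e2 : 2 * g + 2 - 1 = 2 * g + 1 := by omega
      have e3 : 2 * g + 1 - 1 = 2 * g := by omega
      have e4 : g + 1 - 1 = g := by omega
      simp only [pderiv_pow, pderiv_X_self, map_mul, map_pow, eval_X, Fin.val_zero, e1, e2, e3,
        e4, pow_zero, pow_one, Nat.sub_zero, Nat.cast_zero, zero_mul, mul_zero, add_zero,
        Nat.sub_self, Nat.cast_one, mul_one, one_mul, map_natCast, map_one] at h1 h2 h30 h31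
      rw [pderiv_X_of_ne (show (0 : Fin 2) ≠ 1 by decide)] at h31
      simp only [map_zero, mul_zero, zero_mul] at h31
      push_cast at h1 h2 h30 h31
      -- the form `F` and its partial derivatives
      have f0 : x 1 * x 0 * (x 1 ^ (2 * g) + x 0 ^ (2 * g)) = 0 := by
        linear_combination (2 * y + x 0 ^ (g + 1)) * h2 - 4 * h1 -
          (x 1 ^ (2 * g + 1) * x 0 + x 1 * x 0 ^ (2 * g + 1) - x 0 ^ (2 * g + 2)) * hu4
      have f1 : x 0 * (x 0 ^ (2 * g) - x 1 ^ (2 * g)) = 0 := by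
        linear_combination - 4 * h31 -
          ((2 * (g : k) + 1) * x 1 ^ (2 * g) * x 0 + x 0 ^ (2 * g + 1)) * hu4 -
          x 1 ^ (2 * g) * x 0 * hg2
      have f2 : x 1 * (x 1 ^ (2 * g) - x 0 ^ (2 * g)) = 0 := by
        linear_combination - 4 * h30 + 2 * ((g : k) + 1) * x 0 ^ g * h2 -
          (x 1 ^ (2 * g + 1) + (2 * (g : k) + 1) * x 1 * x 0 ^ (2 * g) -
            (2 * (g : k) + 2) * x 0 ^ (2 * g + 1)) * hu4 -
          x 1 * x 0 ^ (2 * g) * hg2
      have hgz : 2 * g ≠ 0 := by omega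
      apply hx
      by_cases hx0 : x 0 = 0
      · rw [hx0, zero_pow hgz, sub_zero] at f2
        have : x 1 = 0 := by
          rcases mul_eq_zero.1 f2 with h | h
          · exact h
          · exact pow_eq_zero_iff hgz |>.1 h
        exact ext2 hx0 this
      · by_cases hx1 : x 1 = 0
        · rw [hx1, zero_pow hgz, sub_zero] at f1
          rcases mul_eq_zero.1 f1 with h | h
          · exact absurd h hx0
          · exact absurd (pow_eq_zero_iff hgz |>.1 h) hx0
        · exfalso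
          have f3 := (mul_eq_zero.1 f0).resolve_left (mul_ne_zero hx1 hx0)
          have f4 := (mul_eq_zero.1 f1).resolve_left hx0
          have f5 : 2 * x 0 ^ (2 * g) = 0 := by linear_combination f3 + f4
          rcases mul_eq_zero.1 f5 with h | h
          · exact h2k h
          · exact hx0 (pow_eq_zero_iff hgz |>.1 h)
    · refine ⟨three (n := 2 * g + 2 + 1) u 0 0 ⟨2 * g + 2, by omega⟩ 0 0, ?_⟩
      intro k _ _ x y hx hs
      have h2k := two_ne (k := k) l hl hl2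
      have hu4 := hu' k
      have hg2 : (2 * (g : k) + 2) ≠ 0 := by
        intro h
        apply hlg
        rw [← CharP.cast_eq_zero_iff k l]
        push_cast
        exact h
      obtain ⟨h1, h2, h3⟩ := hs
      have h30 := h3 0
      have h31 := h3 1
      rw [bf_oneB] at h2
      rw [bf_oneB, ev2 (D := 2 * g + 2)] at h30
      rw [bf_oneB, ev1 (D := 2 * g + 2)] at h31
      have e3 : 2 * g + 2 - 1 = 2 * g + 1 := by omega
      have e4 : g + 1 - 1 = g := by omega
      simp only [pderiv_pow, pderiv_X_self, map_mul, map_pow, eval_X, e3,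
        e4, pow_zero, Nat.cast_zero, Int.cast_zero, zero_mul, mul_zero, add_zero,
        Nat.sub_self, mul_one, map_natCast, map_one] at h2 h30 h31
      rw [pderiv_X_of_ne (show (0 : Fin 2) ≠ 1 by decide)] at h31
      simp only [map_zero, mul_zero, zero_mul] at h31
      push_cast at h2 h30 h31
      have f1 : (2 * (g : k) + 2) * x 1 ^ (2 * g + 1) = 0 := by
        linear_combination - 4 * h31 - (2 * (g : k) + 2) * x 1 ^ (2 * g + 1) * hu4
      have f2 : (2 * (g : k) + 2) * x 0 ^ (2 * g + 1) = 0 := by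
        linear_combination - 4 * h30 + 2 * ((g : k) + 1) * x 0 ^ g * h2
      apply hx
      have hgz : 2 * g + 1 ≠ 0 := by omega
      refine ext2 ?_ ?_
      · exact pow_eq_zero_iff hgz |>.1 ((mul_eq_zero.1 f2).resolve_left hg2)
      · exact pow_eq_zero_iff hgz |>.1 ((mul_eq_zero.1 f1).resolve_left hg2)

end Pool.Agent.Run7.h802.FH
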