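import Pool.Agent.Run7.h216.FH.PLA

/-! Project FH, piece HYP (with the lemmas of helper216 about the norm on the disc). -/

set_option autoImplicit false

namespace Pool.Agent.Run7.h802.FH

open Polynomial MeasureTheory Pool.Agent.Run7.h216.FH

theorem t_HYP : S_HYP := by
  intro g
  obtain ⟨κ1, hκ1, h1⟩ := nd_lower g
  set c : ℝ := (2 * (g : ℝ) + 3) with hc
  have hc0 : 0 < c := by positivity
  refine ⟨min (2 * κ1 / c) 1, by positivity, min_le_right _ _, ?_⟩
  intro F M hM hF hFM v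
  have hM0 : 0 < M := lt_of_lt_of_le one_pos hM
  let P : ℂ[X] := ∑ k : Fin (2 * g + 3), C ((F k : ℂ)) * X ^ (k : ℕ)
  have hPe : ∀ x : ℂ, P.eval x = ∑ k : Fin (2 * g + 3), (F k : ℂ) * x ^ (k : ℕ) := by
    intro x
    simp only [P, eval_finsetSum, eval_mul, eval_C, eval_pow, eval_X]
  have hP : P ≠ 0 := by
    intro h0
    obtain ⟨k, hk⟩ := hF
    apply hk
    have h2 := congrArg (fun Q => Q.coeff (k : ℕ)) h0
    simp only [P, finsetSum_coeff, coeff_C_mul, coeff_X_pow, mul_ite, mul_one, mul_zero,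
      coeff_zero] at h2
    rw [Finset.sum_eq_single k] at h2
    · simpa using h2
    · intro b _ hb
      rw [if_neg]
      intro h
      exact hb (Fin.ext h.symm)
    · intro h
      exact absurd (Finset.mem_univ _) h
  have hTnull : volume ((P.roots.toFinset : Finset ℂ) : Set ℂ) = 0 :=
    Set.Finite.measure_zero (Finset.finite_toSet _) _
  have hbd : ∀ x : ℂ, ‖x‖ ≤ 1 → ‖∑ k : Fin (2 * g + 3), (F k : ℂ) * x ^ (k : ℕ)‖ ≤ c * M := by
    intro x hx
    calc ‖∑ k : Fin (2 * g + 3), (F k : ℂ) * x ^ (k : ℕ)‖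
        ≤ ∑ k : Fin (2 * g + 3), ‖(F k : ℂ) * x ^ (k : ℕ)‖ := norm_sum_le _ _
      _ ≤ ∑ k : Fin (2 * g + 3), M := by
          refine Finset.sum_le_sum fun k _ => ?_
          rw [norm_mul, norm_pow, Complex.norm_intCast]
          calc |(F k : ℝ)| * ‖x‖ ^ (k : ℕ) ≤ M * 1 :=
                mul_le_mul (hFM k) (pow_le_one₀ (norm_nonneg _) hx) (by positivity) hM0.le
            _ = M := mul_one _
      _ = c * M := by
          rw [Finset.sum_const, Finset.card_univ, Fintype.card_fin, nsmul_eq_mul, hc]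
          push_cast
          ring
  have hpt : ∀ x : ℂ, P.eval x ≠ 0 → ‖x‖ ≤ 1 →
      2 / (c * M) * ‖∑ i : Fin g, (v i : ℂ) * x ^ (i : ℕ)‖ ^ 2 ≤
        2 * ‖∑ i : Fin g, (v i : ℂ) * x ^ (i : ℕ)‖ ^ 2 /
          ‖∑ k : Fin (2 * g + 3), (F k : ℂ) * x ^ (k : ℕ)‖ := by
    intro x hx hx1
    rw [hPe] at hx
    have h2 : 0 < ‖∑ k : Fin (2 * g + 3), (F k : ℂ) * x ^ (k : ℕ)‖ := norm_pos_iff.2 hx
    rw [div_mul_eq_mul_div]
    exact div_le_div_of_nonneg_left (by positivity) h2 (hbd x hx1)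
  calc ENNReal.ofReal (min (2 * κ1 / c) 1 / M * ∑ s, v s ^ 2)
      ≤ ENNReal.ofReal (2 / (c * M) * nd v) := by
        refine ENNReal.ofReal_le_ofReal ?_
        calc min (2 * κ1 / c) 1 / M * ∑ s, v s ^ 2
            ≤ (2 * κ1 / c) / M * ∑ s, v s ^ 2 := by
              refine mul_le_mul_of_nonneg_right ?_ (Finset.sum_nonneg fun _ _ => sq_nonneg _)
              exact div_le_div_of_nonneg_right (min_le_left _ _) (by positivity)
          _ = 2 / (c * M) * (κ1 * ∑ s, v s ^ 2) := by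
              field_simp
          _ ≤ 2 / (c * M) * nd v :=
              mul_le_mul_of_nonneg_left (h1 v) (by positivity)
    _ = ENNReal.ofReal (∫ x in Metric.closedBall (0 : ℂ) 1,
          2 / (c * M) * ‖∑ i : Fin g, (v i : ℂ) * x ^ (i : ℕ)‖ ^ 2) := by
        rw [integral_const_mul]
        rfl
    _ = ∫⁻ x in Metric.closedBall (0 : ℂ) 1, ENNReal.ofReal
          (2 / (c * M) * ‖∑ i : Fin g, (v i : ℂ) * x ^ (i : ℕ)‖ ^ 2) := by
        refine ofReal_integral_eq_lintegral_ofReal ?_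
          (Filter.Eventually.of_forall fun x => by positivity)
        exact (nd_int v).const_mul _
    _ ≤ ∫⁻ x in Metric.closedBall (0 : ℂ) 1, ENNReal.ofReal
          (2 * ‖∑ i : Fin g, (v i : ℂ) * x ^ (i : ℕ)‖ ^ 2 /
          ‖∑ k : Fin (2 * g + 3), (F k : ℂ) * x ^ (k : ℕ)‖) := by
        refine lintegral_mono_ae ?_
        rw [ae_restrict_iff' measurableSet_closedBall]
        have hae : ∀ᵐ x : ℂ, x ∉ ((P.roots.toFinset : Finset ℂ) : Set ℂ) :=
          measure_eq_zero_iff_ae_notMem.1 hTnull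
        filter_upwards [hae] with x hx hx1
        refine ENNReal.ofReal_le_ofReal (hpt x (fun h => hx ?_) (by simpa using hx1))
        rw [Finset.mem_coe, Multiset.mem_toFinset, mem_roots hP]
        exact h
    _ ≤ ∫⁻ x, ENNReal.ofReal (2 * ‖∑ i : Fin g, (v i : ℂ) * x ^ (i : ℕ)‖ ^ 2 /
          ‖∑ k : Fin (2 * g + 3), (F k : ℂ) * x ^ (k : ℕ)‖) := setLIntegral_le_lintegral _ _
    _ = energyH F v := rfl

end Pool.Agent.Run7.h802.FH
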