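import Pool.Agent.Run7.h802.FH.Iface2

/-! Project FH, piece CLR: clearing denominators. -/

set_option autoImplicit false

namespace Pool.Agent.Run7.h802.FH

open MvPolynomial

theorem clr1 {τ : Type} (p : MvPolynomial τ ℚ) : ∃ (m : ℕ) (F : MvPolynomial τ ℤ), m ≠ 0 ∧
    map (Int.castRingHom ℚ) F = C (m : ℚ) * p := by
  induction p using MvPolynomial.induction_on with
  | C a =>
    refine ⟨a.den, C a.num, a.den_ne_zero, ?_⟩
    rw [map_C, ← C_mul]
    congr 1
    simp only [eq_intCast]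
    rw [mul_comm]
    exact (Rat.mul_den_eq_num a).symm
  | add p q hp hq =>
    obtain ⟨m, F, hm, hF⟩ := hp
    obtain ⟨m', F', hm', hF'⟩ := hq
    refine ⟨m * m', C (m' : ℤ) * F + C (m : ℤ) * F', mul_ne_zero hm hm', ?_⟩
    rw [map_add, map_mul, map_mul, map_C, map_C, hF, hF']
    simp only [eq_intCast, Int.cast_natCast, Nat.cast_mul, C_mul]
    ring
  | mul_X p i hp =>
    obtain ⟨m, F, hm, hF⟩ := hp
    refine ⟨m, F * X i, hm, ?_⟩
    rw [map_mul, map_X, hF, mul_assoc]

theorem t_CLR : S_CLR := by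
  intro N P r f k hk hf0 hdvd
  classical
  obtain ⟨w, hw⟩ := hdvd
  choose m F hm hF using fun j => clr1 (f j)
  obtain ⟨mw, W, hmw, hW⟩ := clr1 w
  refine ⟨F, W, (∏ j, m j) * mw, mul_ne_zero (Finset.prod_ne_zero_iff.2 fun j _ => hm j) hmw,
    fun j => ?_, fun j => ?_, ?_⟩
  · have h1 : (map (Int.castRingHom ℚ) (F j)).IsHomogeneous (k j) := by
      rw [hF]
      exact (hk j).C_mul _
    intro d hd
    apply h1
    rw [coeff_map]
    simpa using hd
  · rw [hF]
    have hu : IsUnit (C (m j : ℚ) : MvPolynomial (Fin (N + 1)) ℚ) :=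
      (IsUnit.mk0 (m j : ℚ) (by exact_mod_cast hm j)).map C
    exact associated_unit_mul_left _ _ hu
  · apply map_injective (Int.castRingHom ℚ) (RingHom.injective_int _)
    rw [map_mul, map_mul, map_prod, map_C, hw, hW]
    simp only [hF]
    rw [Finset.prod_mul_distrib]
    have e1 : ((Int.castRingHom ℚ) (((∏ j, m j) * mw : ℕ) : ℤ)) = (∏ j, (m j : ℚ)) * mw := by
      simp only [eq_intCast]
      push_cast
      ring
    rw [e1, C_mul, map_prod]
    ring

end Pool.Agent.Run7.h802.FH
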