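import Pool.Agent.Run7.h802.FH.Core

/-! Project FH: the main counting theorems for an abstract height. -/

set_option autoImplicit false

namespace Pool.Agent.Run7.h802.FH

open MvPolynomial Pool.Agent.Run7.h802.HP Pool.Agent.Run7.h796.HP

/-- The inequality for the abstract height `ht` at `a` with slope `κ`. -/
def Bd {n d : ℕ} (ht : (Mon n d → ℤ) → ℝ) (κ : ℝ) (a : Mon n d → ℤ) : Prop :=
  {p : ℕ | p.Prime ∧ ¬ GoodAt a p}.Finite ∧
  ∀ W : ℕ, W ≠ 0 → (∀ p : ℕ, p.Prime → p ≠ 2 → ¬ GoodAt a p → p ∣ W) → ht a ≤ κ * Real.log W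

theorem bad_finite {n d : ℕ} (h : MvPolynomial (Mon n d) ℤ)
    (hz : ∀ (k : Type) [Field k] (a : Mon n d → k) (x : Fin (n + 2) → k), x ≠ 0 → Sing a x →
      aeval a h = 0) (a : Mon n d → ℤ) (ha : eval a h ≠ 0) :
    {p : ℕ | p.Prime ∧ ¬ GoodAt a p}.Finite := by
  apply Set.Finite.subset (Finset.finite_toSet (eval a h).natAbs.primeFactors)
  rintro p ⟨hp, hbad⟩
  unfold GoodAt at hbad
  push Not at hbad
  obtain ⟨k, _, _, x, hx, hx0⟩ := hbad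
  have h1 := hz k _ x hx0 hx
  have h2 : aeval (fun m => ((a m : ℤ) : k)) h = ((eval a h : ℤ) : k) := by
    have h3 := MvPolynomial.eval₂_comp_left (Int.castRingHom k) (RingHom.id ℤ) a h
    simp only [RingHom.comp_id, ← MvPolynomial.eval₂_id] at h3
    rw [MvPolynomial.aeval_def, algebraMap_int_eq]
    exact h3.symm
  rw [h2, CharP.intCast_eq_zero_iff k p] at h1
  rw [Finset.mem_coe, Nat.mem_primeFactors]
  refine ⟨hp, Int.natCast_dvd.1 h1, ?_⟩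
  simpa using ha

theorem card_pos_of_ne {σ : Type} [Fintype σ] (h : MvPolynomial σ ℤ) (hc : ∀ c : ℤ, h ≠ C c) :
    1 ≤ Fintype.card σ := by
  by_contra h0
  have h1 : Fintype.card σ = 0 := by omega
  have : IsEmpty σ := Fintype.card_eq_zero_iff.1 h1
  exact hc _ (MvPolynomial.eq_C_of_isEmpty h)

theorem box_bound {σ : Type} [Fintype σ] (Q : ℕ) (c : σ → ℤ) : ∃ C₁ : ℝ, 1 ≤ C₁ ∧
    ∀ H : ℕ, 1 ≤ H → ∀ b : σ → ℤ, (∀ m, |b m| ≤ H) → ∀ m,
      |((c m + Q * b m : ℤ) : ℝ)| ≤ C₁ * H := by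
  classical
  have hs : (0 : ℝ) ≤ ∑ m, ((c m).natAbs : ℝ) := Finset.sum_nonneg fun _ _ => Nat.cast_nonneg _
  have hQ : (0 : ℝ) ≤ Q := Nat.cast_nonneg _
  refine ⟨∑ m, ((c m).natAbs : ℝ) + Q + 1, by linarith, fun H hH b hb m => ?_⟩
  have hHr : (1 : ℝ) ≤ H := by exact_mod_cast hH
  have h1 : |(c m : ℝ)| ≤ ∑ m, ((c m).natAbs : ℝ) := by
    have h2 : |(c m : ℝ)| = ((c m).natAbs : ℝ) := by
      rw [Nat.cast_natAbs, Int.cast_abs]
    rw [h2]
    exact Finset.single_le_sum (f := fun m => ((c m).natAbs : ℝ))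
      (fun _ _ => Nat.cast_nonneg _) (Finset.mem_univ m)
  have h3 : |(b m : ℝ)| ≤ H := by
    have := hb m
    have h4 : ((|b m| : ℤ) : ℝ) ≤ ((H : ℤ) : ℝ) := by exact_mod_cast this
    rw [Int.cast_abs] at h4
    simpa using h4
  push_cast
  calc |(c m : ℝ) + Q * b m| ≤ |(c m : ℝ)| + |(Q : ℝ) * b m| := abs_add_le _ _
    _ = |(c m : ℝ)| + Q * |(b m : ℝ)| := by rw [abs_mul, abs_of_nonneg hQ]
    _ ≤ (∑ m, ((c m).natAbs : ℝ)) * H + Q * H + 1 * H := by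
        have h5 : Q * |(b m : ℝ)| ≤ Q * (H : ℝ) := mul_le_mul_of_nonneg_left h3 hQ
        have h6 : (∑ m, ((c m).natAbs : ℝ)) * 1 ≤ (∑ m, ((c m).natAbs : ℝ)) * H :=
          mul_le_mul_of_nonneg_left hHr hs
        linarith
    _ = (∑ m, ((c m).natAbs : ℝ) + Q + 1) * H := by ring

open Classical in
theorem nat_mono {σ : Type} [Fintype σ] (H : ℕ) (P R : (σ → ℤ) → Prop)
    (hPR : ∀ b : σ → ℤ, (∀ i, |b i| ≤ (H : ℤ)) → P b → R b) :
    (Nat.card {b : σ → ℤ // (∀ i, |b i| ≤ H) ∧ P b} : ℝ) ≤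
      (Nat.card {b : σ → ℤ // (∀ i, |b i| ≤ H) ∧ R b} : ℝ) := by
  rw [natcard_box, natcard_box]
  have : ((box σ H).filter P).card ≤ ((box σ H).filter R).card := by
    apply Finset.card_le_card
    intro b hb
    rw [Finset.mem_filter] at hb ⊢
    exact ⟨hb.1, hPR b ((mem_box H b).1 hb.1) hb.2⟩
  exact_mod_cast this

open Classical in
theorem nat_union {σ : Type} [Fintype σ] (H : ℕ) (P R S : (σ → ℤ) → Prop)
    (hPR : ∀ b : σ → ℤ, (∀ i, |b i| ≤ (H : ℤ)) → P b → R b ∨ S b) :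
    (Nat.card {b : σ → ℤ // (∀ i, |b i| ≤ H) ∧ P b} : ℝ) ≤
      (Nat.card {b : σ → ℤ // (∀ i, |b i| ≤ H) ∧ R b} : ℝ) +
      (Nat.card {b : σ → ℤ // (∀ i, |b i| ≤ H) ∧ S b} : ℝ) := by
  rw [natcard_box, natcard_box, natcard_box]
  have : ((box σ H).filter P).card ≤ ((box σ H).filter R).card + ((box σ H).filter S).card := by
    refine le_trans (Finset.card_le_card ?_) (Finset.card_union_le _ _)
    intro b hb
    rw [Finset.mem_filter] at hb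
    rw [Finset.mem_union, Finset.mem_filter, Finset.mem_filter]
    rcases hPR b ((mem_box H b).1 hb.1) hb.2 with h | h
    · exact Or.inl ⟨hb.1, h⟩
    · exact Or.inr ⟨hb.1, h⟩
  exact_mod_cast this

open Classical in
theorem nat_box {σ : Type} [Fintype σ] (H : ℕ) (P : (σ → ℤ) → Prop) :
    (Nat.card {b : σ → ℤ // (∀ i, |b i| ≤ H) ∧ P b} : ℝ) ≤
      (2 * (H : ℝ) + 1) ^ Fintype.card σ := by
  rw [natcard_box, ← card_box]
  exact_mod_cast Finset.card_filter_le _ _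

section

variable {n d : ℕ} (h : MvPolynomial (Mon n d) ℤ) (M₀ : ℕ)
  (hconst : ∀ c : ℤ, h ≠ C c)
  (hres : ∀ p : ℕ, p.Prime → M₀ < p → ∀ a : Mon n d → ℤ, (p : ℤ) ∣ eval a h → ¬ GoodAt a p)
  (hz : ∀ (k : Type) [Field k] (a : Mon n d → k) (x : Fin (n + 2) → k), x ≠ 0 → Sing a x →
      aeval a h = 0)
  (ht : (Mon n d → ℤ) → ℝ) (κ₀ C₀ : ℝ) (hκ : 0 ≤ κ₀)
  (hb : ∀ (a : Mon n d → ℤ) (M : ℝ), 1 ≤ M → GenSmooth a → (∀ m, |(a m : ℝ)| ≤ M) →
    ht a ≤ κ₀ * Real.log M + C₀)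

include hres hz hκ hb in
/-- Large radical implies the inequality. -/
theorem bd_of_rad (Q : ℕ) (c : Mon n d → ℤ) (ε : ℝ) (hε : 0 < ε) :
    ∃ H₁ : ℕ, 2 ≤ H₁ ∧ ∀ H : ℕ, H₁ ≤ H → ∀ b : Mon n d → ℤ, (∀ m, |b m| ≤ H) →
      GenSmooth (fun m => c m + Q * b m) →
      ¬ ((rad (eval (fun m => c m + Q * b m) h) : ℝ) < (H : ℝ) ^ (1 - ε / (2 * (κ₀ + ε)))) →
      Bd ht (κ₀ + ε) (fun m => c m + Q * b m) := by
  obtain ⟨C₁, hC₁, hbox⟩ := box_bound Q c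
  obtain ⟨H₁, hH₁, hcore⟩ := core1 h M₀ hres κ₀ ε C₀ C₁ hκ hε (by linarith)
  refine ⟨H₁, hH₁, fun H hH b hbH hsm hr => ?_⟩
  obtain ⟨h1, h2⟩ := hcore H hH (fun m => c m + Q * b m) hr
  refine ⟨bad_finite h hz _ h1, ?_⟩
  intro W hW hWp
  refine le_trans ?_ (h2 W hW hWp)
  have hH1 : 1 ≤ H := by omega
  have hHr : (1 : ℝ) ≤ H := by exact_mod_cast hH1
  refine hb _ (C₁ * H) ?_ hsm (hbox H hH1 b hbH)
  nlinarith

include hconst hres hz hκ hb in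
/-- The power saving. -/
theorem saving (hR : S_RAD) (Q : ℕ) (hQ : 0 < Q) (c : Mon n d → ℤ) (ε : ℝ) (hε : 0 < ε) :
    ∃ C η : ℝ, 0 < η ∧ ∀ H : ℕ, 1 ≤ H →
      (Nat.card {b : Mon n d → ℤ // (∀ m, |b m| ≤ H) ∧
        (GenSmooth (fun m => c m + Q * b m) ∧ ¬ Bd ht (κ₀ + ε) (fun m => c m + Q * b m))} : ℝ) ≤
        C * (H : ℝ) ^ ((Fintype.card (Mon n d) : ℝ) - η) := by
  classical
  set δ : ℝ := ε / (2 * (κ₀ + ε)) with hδ
  have hδ0 : 0 < δ := by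
    have : 0 < κ₀ + ε := by linarith
    positivity
  obtain ⟨C, η, hη, hrad⟩ := hR (Mon n d) h hconst δ hδ0 Q hQ c
  obtain ⟨H₁, hH₁, hbd⟩ := bd_of_rad h M₀ hres hz ht κ₀ C₀ hκ hb Q c ε hε
  have hN := card_pos_of_ne h hconst
  have hNr : (1 : ℝ) ≤ Fintype.card (Mon n d) := by exact_mod_cast hN
  refine ⟨|C| + (2 * (H₁ : ℝ) + 1) ^ Fintype.card (Mon n d), min η 1, by positivity,
    fun H hH => ?_⟩
  have hHr : (1 : ℝ) ≤ H := by exact_mod_cast hH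
  have hpow : (1 : ℝ) ≤ (H : ℝ) ^ ((Fintype.card (Mon n d) : ℝ) - min η 1) := by
    apply Real.one_le_rpow hHr
    have := min_le_right η 1
    linarith
  have hpow2 : (H : ℝ) ^ ((Fintype.card (Mon n d) : ℝ) - η) ≤
      (H : ℝ) ^ ((Fintype.card (Mon n d) : ℝ) - min η 1) := by
    apply Real.rpow_le_rpow_of_exponent_le hHr
    have := min_le_left η 1
    linarith
  by_cases hHH : H₁ ≤ H
  · have h1 := nat_mono H (fun b : Mon n d → ℤ => GenSmooth (fun m => c m + Q * b m) ∧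
        ¬ Bd ht (κ₀ + ε) (fun m => c m + Q * b m))
        (fun b => (rad (eval (fun i => c i + Q * b i) h) : ℝ) < (H : ℝ) ^ (1 - δ))
        (fun b hbm hP => by
          by_contra hcon
          exact hP.2 (hbd H hHH b hbm hP.1 hcon))
    have h3 := h1.trans (hrad H hH)
    refine h3.trans ?_
    have h4 : C * (H : ℝ) ^ ((Fintype.card (Mon n d) : ℝ) - η) ≤
        |C| * (H : ℝ) ^ ((Fintype.card (Mon n d) : ℝ) - min η 1) := by
      refine (mul_le_mul_of_nonneg_right (le_abs_self C) (by positivity)).trans ?_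
      exact mul_le_mul_of_nonneg_left hpow2 (abs_nonneg _)
    refine h4.trans (mul_le_mul_of_nonneg_right ?_ (by positivity))
    have : (0 : ℝ) ≤ (2 * (H₁ : ℝ) + 1) ^ Fintype.card (Mon n d) := by positivity
    linarith
  · push Not at hHH
    have h1 := nat_box H (fun b : Mon n d → ℤ => GenSmooth (fun m => c m + Q * b m) ∧
        ¬ Bd ht (κ₀ + ε) (fun m => c m + Q * b m))
    have h2 : (2 * (H : ℝ) + 1) ^ Fintype.card (Mon n d) ≤
        (2 * (H₁ : ℝ) + 1) ^ Fintype.card (Mon n d) := by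
      apply pow_le_pow_left₀ (by positivity)
      have : (H : ℝ) ≤ H₁ := by exact_mod_cast hHH.le
      linarith
    refine (h1.trans h2).trans ?_
    have h3 : (0 : ℝ) ≤ |C| := abs_nonneg _
    have h4 : (0 : ℝ) ≤ (2 * (H₁ : ℝ) + 1) ^ Fintype.card (Mon n d) := by positivity
    nlinarith

include hconst hres hz hκ hb in
/-- The classes. -/
theorem classes (hR : S_RAD) (hD : S_DEN) (hh : h ≠ 0) (g : MvPolynomial (Mon n d) ℤ)
    (r : Fin (n + 2) → MvPolynomial (Mon n d) ℤ)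
    (hrel : IsRelPrime (map (Int.castRingHom ℚ) h) (map (Int.castRingHom ℚ) g))
    (p1 : ∀ (k : Type) [Field k] (a : Mon n d → k) (x : Fin (n + 2) → k), x ≠ 0 → Sing a x →
      aeval a h = 0 ∧ (aeval a g ≠ 0 → aeval a (r 0) ≠ 0 ∧ x 0 ≠ 0 ∧
        (∀ i, x i * aeval a (r 0) = x 0 * aeval a (r i)) ∧ (x 0 = 1 → hess a x ≠ 0)))
    (p2 : ∀ (R : Type) [CommRing R] (a : Mon n d → R) (x : Fin (n + 2) → R), x 0 = 1 →
      aeval a h ∈ Ideal.span (insert (eval x (form a))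
        (Set.range fun i : Fin (n + 1) => eval x (pderiv i.succ (form a)))))
    (ε' : ℝ) (hε' : 0 < ε') (ε : ℝ) (hε : 0 < ε) :
    ∃ B : ℕ, ∀ Q : ℕ, 0 < Q → (∀ p : ℕ, p.Prime → p ≤ B → p ∣ Q) →
    ∀ c : Mon n d → ℤ, ∃ H₀ : ℕ, ∀ H : ℕ, H₀ ≤ H →
      (1 - ε) * (2 * (H : ℝ) + 1) ^ Fintype.card (Mon n d) ≤
        (Nat.card {b : Mon n d → ℤ // (∀ m, |b m| ≤ H) ∧
          (eval (fun m => c m + Q * b m) h ≠ 0 ∧ GenSmooth (fun m => c m + Q * b m) ∧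
          (∀ p : ℕ, p.Prime → ¬ p ∣ Q → GoodAt (fun m => c m + Q * b m) p ∨
            NodeAt (fun m => c m + Q * b m) p) ∧
          Bd ht (κ₀ + ε') (fun m => c m + Q * b m))} : ℝ) := by
  classical
  obtain ⟨B, hB⟩ := hD n d h g r hh hrel p1 p2 (ε / 2) (by positivity)
  refine ⟨B, fun Q hQ hQB c => ?_⟩
  obtain ⟨H₂, hH₂⟩ := hB Q hQ hQB c
  obtain ⟨C, η, hη, hsav⟩ := saving h M₀ hconst hres hz ht κ₀ C₀ hκ hb hR Q hQ c ε' hε'
  -- the error term is small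
  obtain ⟨H₃, hH₃⟩ : ∃ H₃ : ℕ, ∀ H : ℕ, H₃ ≤ H → |C| * (H : ℝ) ^ (-η) ≤ ε / 2 := by
    have ht1 : Filter.Tendsto (fun H : ℕ => |C| * (H : ℝ) ^ (-η)) Filter.atTop
        (nhds (|C| * 0)) :=
      ((tendsto_rpow_neg_atTop hη).comp tendsto_natCast_atTop_atTop).const_mul _
    rw [mul_zero] at ht1
    have := ht1.eventually (ge_mem_nhds (show (0 : ℝ) < ε / 2 by positivity))
    obtain ⟨H₃, h3⟩ := Filter.eventually_atTop.1 this
    exact ⟨H₃, h3⟩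
  refine ⟨max (max H₂ H₃) 1, fun H hH => ?_⟩
  have hH1 : 1 ≤ H := (le_max_right _ _).trans hH
  have hHr : (1 : ℝ) ≤ H := by exact_mod_cast hH1
  have hH0 : (0 : ℝ) < H := by linarith
  have e1 := hH₂ H ((le_max_left _ _).trans ((le_max_left _ _).trans hH))
  have e2 := hsav H hH1
  have e3 := hH₃ H ((le_max_right _ _).trans ((le_max_left _ _).trans hH))
  have e4 : C * (H : ℝ) ^ ((Fintype.card (Mon n d) : ℝ) - η) ≤
      ε / 2 * (2 * (H : ℝ) + 1) ^ Fintype.card (Mon n d) := by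
    have h1 : (H : ℝ) ^ ((Fintype.card (Mon n d) : ℝ) - η) =
        (H : ℝ) ^ Fintype.card (Mon n d) * (H : ℝ) ^ (-η) := by
      rw [sub_eq_add_neg, Real.rpow_add hH0, Real.rpow_natCast]
    rw [h1]
    have h2 : (H : ℝ) ^ Fintype.card (Mon n d) ≤ (2 * (H : ℝ) + 1) ^ Fintype.card (Mon n d) :=
      pow_le_pow_left₀ hH0.le (by linarith) _
    calc C * ((H : ℝ) ^ Fintype.card (Mon n d) * (H : ℝ) ^ (-η))
        ≤ |C| * ((H : ℝ) ^ Fintype.card (Mon n d) * (H : ℝ) ^ (-η)) :=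
          mul_le_mul_of_nonneg_right (le_abs_self C) (by positivity)
      _ = (H : ℝ) ^ Fintype.card (Mon n d) * (|C| * (H : ℝ) ^ (-η)) := by ring
      _ ≤ (2 * (H : ℝ) + 1) ^ Fintype.card (Mon n d) * (ε / 2) :=
          mul_le_mul h2 e3 (by positivity) (by positivity)
      _ = ε / 2 * (2 * (H : ℝ) + 1) ^ Fintype.card (Mon n d) := by ring
  have hcard' := nat_union H (fun b : Mon n d → ℤ => eval (fun m => c m + Q * b m) h ≠ 0 ∧
        GenSmooth (fun m => c m + Q * b m) ∧ ∀ p : ℕ, p.Prime → ¬ p ∣ Q →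
          GoodAt (fun m => c m + Q * b m) p ∨ NodeAt (fun m => c m + Q * b m) p)
      (fun b => eval (fun m => c m + Q * b m) h ≠ 0 ∧
        GenSmooth (fun m => c m + Q * b m) ∧
          (∀ p : ℕ, p.Prime → ¬ p ∣ Q → GoodAt (fun m => c m + Q * b m) p ∨
            NodeAt (fun m => c m + Q * b m) p) ∧ Bd ht (κ₀ + ε') (fun m => c m + Q * b m))
      (fun b => GenSmooth (fun m => c m + Q * b m) ∧
        ¬ Bd ht (κ₀ + ε') (fun m => c m + Q * b m)) (fun b _ hP => by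
          by_cases hq : Bd ht (κ₀ + ε') (fun m => c m + Q * b m)
          · exact Or.inl ⟨hP.1, hP.2.1, hP.2.2, hq⟩
          · exact Or.inr ⟨hP.2.1, hq⟩)
  linarith

end

end Pool.Agent.Run7.h802.FH
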