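import Pool.Agent.Run7.h802.FH.Hom
import Pool.Agent.Run7.h802.FH.RadPiece
import Pool.Agent.Run7.h802.FH.Main
import Pool.Agent.Run7.h742.VI.Main

/-! Project FH: the radical of the values of a polynomial is rarely smaller than `H ^ (2 - δ)`, from
the theorem of helper742. -/

set_option autoImplicit false

namespace Pool.Agent.Run7.h802.FH

open MvPolynomial Pool.Agent.Run7.h802.HP Pool.Agent.Run7.h796.HP

theorem totalDegree_aeval_le {σ τ : Type} (L : MvPolynomial σ ℚ) (g : σ → MvPolynomial τ ℚ)
    (hg : ∀ i, (g i).totalDegree ≤ 1) : (aeval g L).totalDegree ≤ L.totalDegree := by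
  classical
  rw [aeval_def, eval₂_eq]
  apply totalDegree_finsetSum_le
  intro m hm
  refine (totalDegree_mul _ _).trans ?_
  have h1 : (algebraMap ℚ (MvPolynomial τ ℚ) (coeff m L)).totalDegree = 0 := by
    rw [algebraMap_eq]
    exact totalDegree_C _
  rw [h1, zero_add]
  refine (totalDegree_finsetProd _ _).trans ?_
  have h2 : ∀ i ∈ m.support, (g i ^ m i).totalDegree ≤ m i := fun i _ => by
    refine (totalDegree_pow _ _).trans ?_
    calc m i * (g i).totalDegree ≤ m i * 1 := Nat.mul_le_mul_left _ (hg i)
      _ = m i := mul_one _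
  refine (Finset.sum_le_sum h2).trans ?_
  exact le_totalDegree hm

theorem zeros_card {σ : Type} [Fintype σ] [DecidableEq σ] (h : MvPolynomial σ ℤ)
    (hc : ∀ c : ℤ, h ≠ C c) (Q : ℕ) (hQ : 0 < Q) (c : σ → ℤ) : ∃ D : ℝ, 0 ≤ D ∧ ∀ H : ℕ, 1 ≤ H →
    (Nat.card {b : σ → ℤ // (∀ i, |b i| ≤ H) ∧ eval (fun i => c i + Q * b i) h = 0} : ℝ) ≤
      D * (H : ℝ) ^ ((Fintype.card σ : ℝ) - 1) := by
  classical
  obtain ⟨D, hD⟩ := RadPiece.sz_val h hc Q hQ c
  refine ⟨D * 3 ^ Fintype.card σ, by positivity, fun H hH => ?_⟩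
  have hHr : (1 : ℝ) ≤ H := by exact_mod_cast hH
  have hH0 : (0 : ℝ) < H := by linarith
  have h1 := hD H 0
  have h2 : Nat.card {b : σ → ℤ // (∀ i, |b i| ≤ (H : ℤ)) ∧
      eval (fun i => c i + Q * b i) h = 0} =
      (Finset.filter (fun b => eval (fun i => c i + Q * b i) h = 0)
        (Fintype.piFinset fun _ : σ => Finset.Icc (-(H : ℤ)) H)).card := by
    rw [natcard_box]
    congr 1
    ext b
    simp only [Finset.mem_filter, mem_box, Fintype.mem_piFinset, Finset.mem_Icc, abs_le]
  rw [h2]
  set z := (Finset.filter (fun b => eval (fun i => c i + Q * b i) h = 0)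
        (Fintype.piFinset fun _ : σ => Finset.Icc (-(H : ℤ)) H)).card with hz
  have h3 : (z : ℝ) * (2 * (H : ℝ) + 1) ≤ D * (2 * (H : ℝ) + 1) ^ Fintype.card σ := by
    exact_mod_cast h1
  have h4 : (2 * (H : ℝ) + 1) ^ Fintype.card σ ≤ 3 ^ Fintype.card σ * (H : ℝ) ^ Fintype.card σ := by
    rw [← mul_pow]
    apply pow_le_pow_left₀ (by positivity)
    linarith
  have h5 : (H : ℝ) ^ Fintype.card σ = H * (H : ℝ) ^ ((Fintype.card σ : ℝ) - 1) := by
    rw [Real.rpow_sub hH0, Real.rpow_natCast, Real.rpow_one]
    field_simp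
  have h6 : (z : ℝ) * H ≤ (D * 3 ^ Fintype.card σ * (H : ℝ) ^ ((Fintype.card σ : ℝ) - 1)) * H := by
    calc (z : ℝ) * H ≤ (z : ℝ) * (2 * (H : ℝ) + 1) :=
          mul_le_mul_of_nonneg_left (by linarith) (Nat.cast_nonneg _)
      _ ≤ D * (2 * (H : ℝ) + 1) ^ Fintype.card σ := h3
      _ ≤ D * (3 ^ Fintype.card σ * (H : ℝ) ^ Fintype.card σ) :=
          mul_le_mul_of_nonneg_left h4 (Nat.cast_nonneg _)
      _ = (D * 3 ^ Fintype.card σ * (H : ℝ) ^ ((Fintype.card σ : ℝ) - 1)) * H := by
          rw [h5]; ring
  exact le_of_mul_le_mul_right h6 hH0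

theorem aeval_int {R τ : Type} [CommRing R] (x : τ → R) (p : MvPolynomial τ ℤ) :
    @aeval ℤ R τ _ _ (Ring.toIntAlgebra R) x p = eval₂ (Int.castRingHom R) x p := by
  rw [aeval_def, algebraMap_int_eq]

theorem eval_int {τ : Type} (x : τ → ℤ) (p : MvPolynomial τ ℤ) :
    eval x p = eval₂ (Int.castRingHom ℤ) x p := by
  rw [← eval₂_id]
  congr 1

theorem t_RAD2 (hFac : S_FAC) (hClr : S_CLR) (hHom : S_HOM) : S_RAD2 := by
  intro σ _ _ h hnl δ hδ Q hQ c
  classical
  have hconst : ∀ c : ℤ, h ≠ C c := by
    intro c' h0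
    apply hnl 1 (c' : ℚ) 0 (by simp)
    rw [h0]
    simp
  have hN1 : 1 ≤ Fintype.card σ := card_pos_of_ne h hconst
  have hQq : (Q : ℚ) ≠ 0 := by exact_mod_cast hQ.ne'
  set N : ℕ := Fintype.card σ with hN
  let e : σ ≃ Fin N := Fintype.equivFin σ
  let G : MvPolynomial (Fin N) ℤ := aeval (fun i : σ => C (c i) + C (Q : ℤ) * X (e i)) h
  have hG : ∀ (R : Type) [CommRing R] (b : Fin N → R), eval₂ (Int.castRingHom R) b G =
      eval₂ (Int.castRingHom R) (fun i => ((c i : ℤ) : R) + (Q : R) * b (e i)) h := by
    intro R _ b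
    rw [← aeval_int, ← aeval_int]
    change aeval b (aeval _ h) = _
    rw [← AlgHom.comp_apply]
    congr 1
    apply MvPolynomial.algHom_ext
    intro i
    simp
  obtain ⟨D, P, hPhom, hP'⟩ := hHom N G
  have hP : ∀ (R : Type) [CommRing R] (b : Fin N → R), eval₂ (Int.castRingHom R)
      (Fin.cons (α := fun _ => R) 1 b) P = eval₂ (Int.castRingHom R) b G := by
    intro R _ b
    rw [← aeval_int, ← aeval_int]
    exact hP' R b
  -- the inverse substitution
  let b₀ : Fin N → MvPolynomial σ ℚ := fun j => C (1 / (Q : ℚ)) * (X (e.symm j) - C (c (e.symm j) : ℚ))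
  have hb₀ : eval₂ (Int.castRingHom (MvPolynomial σ ℚ))
      (Fin.cons (α := fun _ => MvPolynomial σ ℚ) 1 b₀) P = map (Int.castRingHom ℚ) h := by
    rw [hP, hG]
    have h1 : (fun i : σ => ((c i : ℤ) : MvPolynomial σ ℚ) + (Q : MvPolynomial σ ℚ) * b₀ (e i)) =
        fun i => X i := by
      funext i
      change ((c i : ℤ) : MvPolynomial σ ℚ) + (Q : MvPolynomial σ ℚ) *
        (C (1 / (Q : ℚ)) * (X (e.symm (e i)) - C (c (e.symm (e i)) : ℚ))) = X i
      rw [Equiv.symm_apply_apply]
      have h2 : (Q : MvPolynomial σ ℚ) = C (Q : ℚ) := by simp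
      have h3 : ((c i : ℤ) : MvPolynomial σ ℚ) = C ((c i : ℤ) : ℚ) := by simp
      rw [h2, h3, ← mul_assoc, ← C_mul, mul_one_div, div_self hQq, C_1]
      ring
    rw [h1]
    have h4 : Int.castRingHom (MvPolynomial σ ℚ) = (C : ℚ →+* MvPolynomial σ ℚ).comp
      (Int.castRingHom ℚ) := RingHom.ext_int _ _
    rw [h4, ← eval₂_map, eval₂_eta]
  have hPq : aeval (Fin.cons (α := fun _ => MvPolynomial σ ℚ) 1 b₀) (map (Int.castRingHom ℚ) P) =
      map (Int.castRingHom ℚ) h := by
    rw [← hb₀, aeval_def, eval₂_map]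
    congr 1
  have hP0 : map (Int.castRingHom ℚ) P ≠ 0 := by
    intro h0
    rw [h0, map_zero] at hPq
    apply hnl 1 0 0 (by simp)
    rw [← hPq]
    simp
  rcases hFac N (map (Int.castRingHom ℚ) P) D hP0 (hPhom.map _) with
    ⟨r, f, k, f1, f2, f3, f4, f5, f6⟩ | ⟨L, u, a, k, hL, hLP⟩
  · obtain ⟨F, W, M, hM, F1, F2, F3⟩ := hClr N P r f k f1 (fun j => (f2 j).ne_zero) f6
    have hθ : 2 - δ / 2 < ∑ j, ((min (k j) 2 : ℕ) : ℝ) := by
      have : (2 : ℝ) ≤ ∑ j, ((min (k j) 2 : ℕ) : ℝ) := by exact_mod_cast f5
      linarith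
    obtain ⟨c₁, hc₁, C₁, hC₁, hmain⟩ := _root_.Run7.h742.VI.main_slice hN1 M.primeFactors F k F1
      (fun j => (F2 j).symm.irreducible (f2 j))
      (fun i j hij hass => f3 i j hij ((F2 i).symm.trans (hass.trans (F2 j))))
      (fun j hass => f4 j ((F2 j).symm.trans hass)) (2 - δ / 2) hθ
    obtain ⟨D', hD'0, hzero⟩ := zeros_card h hconst Q hQ c
    refine ⟨D' + C₁, min c₁ 1, by positivity, fun H hH => ?_⟩
    have hHr : (1 : ℝ) ≤ H := by exact_mod_cast hH
    have hlog : 0 ≤ Real.log H := Real.log_nonneg hHr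
    have hsplit := nat_union H (fun b : σ → ℤ =>
        (rad (eval (fun i => c i + Q * b i) h) : ℝ) < (H : ℝ) ^ (2 - δ))
      (fun b => eval (fun i => c i + Q * b i) h = 0)
      (fun b => (rad (eval (fun i => c i + Q * b i) h) : ℝ) < (H : ℝ) ^ (2 - δ) ∧
        eval (fun i => c i + Q * b i) h ≠ 0) (fun b _ hb => by
          by_cases h0 : eval (fun i => c i + Q * b i) h = 0
          · exact Or.inl h0
          · exact Or.inr ⟨hb, h0⟩)
    refine hsplit.trans ?_
    rw [add_mul]
    have hexp : ∀ x : ℝ, min c₁ 1 ≤ x → (H : ℝ) ^ ((N : ℝ) - x) ≤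
        (H : ℝ) ^ ((N : ℝ) - min c₁ 1) := fun x hx =>
      Real.rpow_le_rpow_of_exponent_le hHr (by linarith)
    refine add_le_add ?_ ?_
    · refine (hzero H hH).trans ?_
      exact mul_le_mul_of_nonneg_left (hexp 1 (min_le_right _ _)) hD'0
    · refine le_trans ?_ ((hmain H hH 1 one_ne_zero).trans
        (mul_le_mul_of_nonneg_left (hexp c₁ (min_le_left _ _)) hC₁.le))
      rw [natcard_box, ← Set.ncard_coe_finset]
      have hle : ((box σ H).filter fun b : σ → ℤ =>
          (rad (eval (fun i => c i + Q * b i) h) : ℝ) < (H : ℝ) ^ (2 - δ) ∧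
            eval (fun i => c i + Q * b i) h ≠ 0 : Set (σ → ℤ)).ncard ≤
          Set.ncard {x : Fin (N + 1) → ℤ | x ∈ Pool.Agent.TH910.Voj.box (N + 1) H ∧ x 0 = 1 ∧
            ((∃ j, eval x (F j) = 0) ∨ Pool.Agent.TH910.Voj.logRad M.primeFactors
              (∏ j, eval x (F j)) < (2 - δ / 2) * Real.log H)} := by
        refine Set.ncard_le_ncard_of_injOn
          (fun b => Fin.cons (α := fun _ => ℤ) 1 fun j => b (e.symm j)) ?_ ?_ ?_
        · intro b hb
          rw [Finset.mem_coe, Finset.mem_filter, mem_box] at hb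
          obtain ⟨hb1, hb2, hb3⟩ := hb
          refine ⟨?_, rfl, ?_⟩
          · rw [Pool.Agent.TH910.Voj.mem_box]
            intro i
            refine Fin.cases ?_ (fun j => ?_) i
            · simp only [Fin.cons_zero, abs_one]
              exact_mod_cast hH
            · simp only [Fin.cons_succ]
              exact hb1 _
          · by_cases hz : ∃ j, eval (Fin.cons (α := fun _ => ℤ) 1 fun j => b (e.symm j)) (F j) = 0
            · exact Or.inl hz
            · right
              push Not at hz
              set x : Fin (N + 1) → ℤ := Fin.cons (α := fun _ => ℤ) 1 fun j => b (e.symm j) with hx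
              set v : ℤ := eval (fun i => c i + Q * b i) h with hv
              have hxP : eval x P = v := by
                have h1 := hP ℤ fun j => b (e.symm j)
                rw [hG] at h1
                simp only [Int.cast_id, Equiv.symm_apply_apply] at h1
                rw [hv, eval_int, eval_int]
                exact h1
              have h2 : (M : ℤ) * v = (∏ j, eval x (F j)) * eval x W := by
                have := congrArg (eval x) F3
                rw [map_mul, map_mul, map_prod, eval_C, hxP] at this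
                exact this
              have hprod0 : (∏ j, eval x (F j)) ≠ 0 := Finset.prod_ne_zero_iff.2 fun j _ => hz j
              have hMv0 : (M : ℤ) * v ≠ 0 := mul_ne_zero (by exact_mod_cast hM) hb3
              have h3 : Pool.Agent.TH910.Voj.logRad M.primeFactors (∏ j, eval x (F j)) ≤
                  Real.log (rad v) := by
                unfold Pool.Agent.TH910.Voj.logRad rad
                push_cast
                rw [Real.log_prod (fun p hp => by
                  exact_mod_cast (Nat.prime_of_mem_primeFactors hp).ne_zero)]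
                refine Finset.sum_le_sum_of_subset_of_nonneg ?_
                  fun p _ _ => Real.log_natCast_nonneg _
                intro p hp
                rw [Finset.mem_sdiff] at hp
                obtain ⟨hp1, hp2⟩ := hp
                have hpp := Nat.prime_of_mem_primeFactors hp1
                have hpd : (p : ℤ) ∣ (M : ℤ) * v := by
                  rw [h2]
                  exact (Int.natCast_dvd.2 (Nat.dvd_of_mem_primeFactors hp1)).mul_right _
                rcases (Nat.prime_iff_prime_int.1 hpp).dvd_or_dvd hpd with h4 | h4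
                · exfalso
                  apply hp2
                  rw [Nat.mem_primeFactors]
                  exact ⟨hpp, by exact_mod_cast h4, hM⟩
                · rw [Nat.mem_primeFactors]
                  exact ⟨hpp, Int.natCast_dvd.1 h4, by simpa using hb3⟩
              have hrad0 : (0 : ℝ) < rad v := by
                have : rad v ≠ 0 := by
                  unfold rad
                  exact Finset.prod_ne_zero_iff.2 fun p hp =>
                    (Nat.prime_of_mem_primeFactors hp).ne_zero
                exact_mod_cast Nat.pos_of_ne_zero this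
              have h5 : Real.log (rad v) < (2 - δ) * Real.log H := by
                rw [← Real.log_rpow (by linarith)]
                exact Real.log_lt_log hrad0 hb2
              have h6 : (2 - δ) * Real.log H ≤ (2 - δ / 2) * Real.log H :=
                mul_le_mul_of_nonneg_right (by linarith) hlog
              linarith
        · intro b _ b' _ hbb
          funext i
          have := congrFun hbb (Fin.succ (e i))
          simpa using this
        · exact Set.Finite.subset (Finset.finite_toSet (Pool.Agent.TH910.Voj.box (N + 1) H))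
            fun x hx => hx.1
      exact_mod_cast hle
  · exfalso
    refine hnl (aeval (Fin.cons (α := fun _ => MvPolynomial σ ℚ) 1 b₀) L) u k ?_ ?_
    · have h1 : L.totalDegree ≤ 1 := hL.totalDegree_le
      refine (totalDegree_aeval_le L _ fun i => ?_).trans h1
      refine Fin.cases ?_ (fun j => ?_) i
      · simp
      · simp only [Fin.cons_succ]
        refine (totalDegree_mul _ _).trans ?_
        rw [totalDegree_C, zero_add]
        refine (totalDegree_sub _ _).trans ?_
        rw [totalDegree_C, totalDegree_X]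
        simp
    · rw [← hPq, hLP]
      simp [algebraMap_eq]

end Pool.Agent.Run7.h802.FH
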