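import Pool.Agent.Run7.h802.FH.Pieces
import Pool.Agent.Run7.h802.FH.Clr
import Pool.Agent.Run7.h802.FH.Rad2
import Pool.Agent.Run7.h351.FH.NL
import Pool.Agent.Run7.h580.FH.FAC

/-! Project FH, second part: all pieces together (with helper351 and helper580). -/

set_option autoImplicit false

namespace Pool.Agent.Run7.h802.FH

theorem allRad2 : S_RAD2 := t_RAD2 Pool.Agent.Run7.h580.FH.t_FAC t_CLR t_HOM

end Pool.Agent.Run7.h802.FH
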