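import Pool.Agent.Run7.h802.HP.Iface

/-! Project FH (helper802): the height conjecture of Frey and the effective Shafarevich conjecture for
almost all semistable hyperelliptic curves and plane curves over the rationals (MP_c59389_nt,
MP_f89135_nt, MP_07b2d0_nt). Each `S_...` is a statement to be proved by one helper in his own file.
The notation (`Mon`, `form`, `Sing`, `hess`, `GoodAt`, `NodeAt`) is that of project HP. -/

set_option autoImplicit false

namespace Pool.Agent.Run7.h802.FH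

open MvPolynomial MeasureTheory Pool.Agent.Run7.h802.HP

/-- MAC (elimination theory). The forms with a singular zero in some extension field are the zeros
of finitely many polynomials with integral coefficients.
Proof: let `R = ℤ[Mon n d]`, `u` the universal form, `I` the ideal of `R[X_0, ..., X_(n+1)]` generated
by `u` and its partial derivatives, and `J N` the ideal of all `e` in `R` with `e * X^α ∈ I` for all
`|α| = N`. Then `J N ⊆ J (N+1)`, so `J N = J N₀` for `N ≥ N₀` (noetherian); take generators of `J N₀`.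
If `e ∈ J N₀`, `e(a) ≠ 0`, then all `X^α` with `|α| = N₀` vanish at a singular zero `x`, so `x = 0`.
Conversely, if `a` over `k` has no singular zero in the algebraic closure, then by the Nullstellensatz
all `X^α` with `|α| = N` are in the ideal `I_a`, for a large `N ≥ N₀`; so the `R`-module of the forms
of degree `N` modulo those in `I` (finitely generated) becomes zero over `k`, and by Nakayama (or
Cramer: choose forms `f_α` of degree `N` in `I` and a `k`-linear combination ...) some element `e` of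
`J N = J N₀` has `e(a) ≠ 0`. (Cramer: the forms `X^β u`, `X^β ∂_i u` of degree `N` generate all forms
of degree `N` over `k`, so a maximal minor `e` of their coefficient matrix is not zero at `a`, and
`e * X^α ∈ I` for all `|α| = N` by Cramer's rule.) -/
def S_MAC : Prop := ∀ n d : ℕ, 3 ≤ d → ∃ s : Finset (MvPolynomial (Mon n d) ℤ),
  ∀ (k : Type) [Field k] (a : Mon n d → k), (∀ e ∈ s, aeval a e = 0) ↔
    ∃ (K : Type) (_ : Field K) (_ : Algebra k K) (x : Fin (n + 2) → K),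
      x ≠ 0 ∧ Sing (fun m => algebraMap k K (a m)) x

/-- RES. The statement DISC of project HP for all `n ≥ 0` (its proof in `Run7/h633/HP/Asm.lean`,
`disc_ae` with `h590.HP.det_ne`, does not use `n ≥ 1`), and in addition: `h` is not constant, and for
large primes `p` the forms with `p ∣ h(a)` have a singular zero modulo `p`.
Proof of the addition, from `S_MAC`: let `α` be the universal singular form (`al`, over
`ℤ[Vr n d 0]`), `x = xi` its singular zero. By `r i = ∂ h / ∂ a_(sp 0 i)` the coordinates `x i = r i / r 0`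
are in the field `ℚ(α)`, so `ℚ(α)` is the field of all rational functions in `Vr n d 0`, of
transcendence degree `card (Mon n d) - 1`. So every `e` with `e(α) = 0` is divisible by `h` in
`ℚ[Mon n d]`: otherwise `h`, `e` are relatively prime (`h` is irreducible over `ℚ`, by the last property
in `S_MIN` and `∂ h (α) ≠ 0`), `S_ELIM` gives a nonzero `r` in one variable less which vanishes at
`α` after a linear change, and the transcendence degree would be smaller. The elements `e` of `s` in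
`S_MAC` vanish at `α`, since `α` has the singular zero `x`. So `M * e = h * e'` over `ℤ` with `M ≠ 0` for
all `e ∈ s`, and if `p ∣ h(a)`, `p` prime to `M`, then `p ∣ e(a)` for all `e ∈ s`, so by `S_MAC` the form `a`
modulo `p` has a singular zero. -/
def S_RES : Prop := ∀ n d : ℕ, 3 ≤ d →
  ∃ (h g : MvPolynomial (Mon n d) ℤ) (r : Fin (n + 2) → MvPolynomial (Mon n d) ℤ) (M : ℕ),
    h ≠ 0 ∧ IsRelPrime (map (Int.castRingHom ℚ) h) (map (Int.castRingHom ℚ) g) ∧
    (∀ (k : Type) [Field k] (a : Mon n d → k) (x : Fin (n + 2) → k), x ≠ 0 → Sing a x →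
      aeval a h = 0 ∧ (aeval a g ≠ 0 → aeval a (r 0) ≠ 0 ∧ x 0 ≠ 0 ∧
        (∀ i, x i * aeval a (r 0) = x 0 * aeval a (r i)) ∧ (x 0 = 1 → hess a x ≠ 0))) ∧
    (∀ (R : Type) [CommRing R] (a : Mon n d → R) (x : Fin (n + 2) → R), x 0 = 1 →
      aeval a h ∈ Ideal.span (insert (eval x (form a))
        (Set.range fun i : Fin (n + 1) => eval x (pderiv i.succ (form a))))) ∧
    (∀ c : ℤ, h ≠ C c) ∧
    ∀ p : ℕ, p.Prime → M < p → ∀ a : Mon n d → ℤ, (p : ℤ) ∣ eval a h → ¬ GoodAt a p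

/-- The product of the primes dividing `z` (and `1` for `z = 0`). -/
def rad (z : ℤ) : ℕ := ∏ p ∈ z.natAbs.primeFactors, p

/-- RADN. Few integers have a small radical.
Proof: for a squarefree `r` the number of the `n ≤ X` with radical `r` is at most
`∑ (X / n) ^ η ≤ X ^ η ∏ (p ∣ r) 1 / (p ^ η - 1) ≤ C X ^ η`, as the factor of `p` is at most `1` if
`p ^ η ≥ 2`. -/
def S_RADN : Prop := ∀ η : ℝ, 0 < η → ∃ C : ℝ, ∀ X Y : ℕ, 1 ≤ X → 1 ≤ Y →
  (Nat.card {n : ℕ // 1 ≤ n ∧ n ≤ X ∧ rad n ≤ Y} : ℝ) ≤ C * Y * (X : ℝ) ^ η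

/-- RAD. The values of a polynomial which is not constant rarely have a small radical.
Proof: the values at the points of the box are `O(H ^ deg)`; each value `n` is taken at most
`deg * (2 H + 1) ^ (N - 1)` times in the box, by the lemma of Schwartz and Zippel (in Mathlib), since the
polynomial minus `n` is not zero, also after the substitution `b ↦ c + Q b`. Now use `S_RADN` with
`Y = ⌈H ^ (1 - δ)⌉` and `η` small. -/
def S_RAD : Prop := ∀ (σ : Type) [Fintype σ] [DecidableEq σ] (h : MvPolynomial σ ℤ),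
  (∀ c : ℤ, h ≠ C c) → ∀ δ : ℝ, 0 < δ → ∀ Q : ℕ, 0 < Q → ∀ c : σ → ℤ,
  ∃ (C η : ℝ), 0 < η ∧ ∀ H : ℕ, 1 ≤ H →
    (Nat.card {b : σ → ℤ // (∀ i, |b i| ≤ H) ∧
      (rad (eval (fun i => c i + Q * b i) h) : ℝ) < (H : ℝ) ^ (1 - δ)} : ℝ) ≤
        C * (H : ℝ) ^ ((Fintype.card σ : ℝ) - η)

/-- VOL. Comparison of volumes: `{E ≤ 1}` is contained in the ball of radius `lam ^ (-1/2)`. (If the
first volume is zero then the logarithm is zero by convention, which is fine.) -/
def S_VOL : Prop := ∀ (ι : Type) [Fintype ι] (E : (ι → ℝ) → ENNReal) (lam : ℝ), 0 < lam → lam ≤ 1 →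
  (∀ v, ENNReal.ofReal (lam * ∑ i, v i ^ 2) ≤ E v) →
  Real.log ((volume {v : ι → ℝ | E v ≤ 1}).toReal /
    (volume {v : ι → ℝ | ∑ i, v i ^ 2 ≤ 1}).toReal) ≤
      (Fintype.card ι : ℝ) / 2 * Real.log (1 / lam)

/-- The square of the norm of the differential `∑ v_i x^i dx / y` on the curve `y² = F(x)`. -/
noncomputable def energyH {g : ℕ} (F : Fin (2 * g + 3) → ℤ) (v : Fin g → ℝ) : ENNReal :=
  ∫⁻ z : ℂ, ENNReal.ofReal (2 * ‖∑ i, (v i : ℂ) * z ^ (i : ℕ)‖ ^ 2 / ‖∑ k, (F k : ℂ) * z ^ (k : ℕ)‖)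

/-- HYP. Lower bound for the norm (hyperelliptic curves).
Proof: on the unit disc `|F(z)| ≤ (2 g + 3) M`, and
`∫_(|z| ≤ 1) |∑ v_i z^i|² = ∑ v_i² π / (i + 1)` (or: this is a positive definite quadratic form in `v`,
so at least `κ ∑ v_i²` by compactness). The zeros of `F` are a null set as `F ≠ 0`. -/
def S_HYP : Prop := ∀ g : ℕ, ∃ κ : ℝ, 0 < κ ∧ κ ≤ 1 ∧ ∀ (F : Fin (2 * g + 3) → ℤ) (M : ℝ), 1 ≤ M →
  (∃ k, F k ≠ 0) → (∀ k, |(F k : ℝ)| ≤ M) → ∀ v : Fin g → ℝ,
    ENNReal.ofReal (κ / M * ∑ i, v i ^ 2) ≤ energyH F v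

/-- The polynomial `f(x, Y)` in `Y`, where `f(x, y)` is the form with coefficients `a` at `(1, x, y)`. -/
noncomputable def fib {d : ℕ} (a : Mon 1 d → ℤ) (x : ℂ) : Polynomial ℂ :=
  ∑ m, Polynomial.C ((a m : ℂ) * x ^ ((m.1 1 : Fin (d + 1)) : ℕ)) *
    Polynomial.X ^ ((m.1 2 : Fin (d + 1)) : ℕ)

/-- The exponents `(i, j)` with `i + j ≤ d - 3`. -/
abbrev Idx (d : ℕ) : Type := {s : Fin d × Fin d // (s.1 : ℕ) + s.2 + 3 ≤ d}

/-- The polynomial `∑ v_(i, j) x^i Y^j`. -/
noncomputable def num {d : ℕ} (v : Idx d → ℝ) (x : ℂ) : Polynomial ℂ :=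
  ∑ s, Polynomial.C ((v s : ℂ) * x ^ ((s.1.1 : Fin d) : ℕ)) * Polynomial.X ^ ((s.1.2 : Fin d) : ℕ)

/-- The square of the norm of the differential `(∑ v_(i, j) x^i y^j) dx / f_y` on the curve
`f(x, y) = 0`. -/
noncomputable def energyP {d : ℕ} (a : Mon 1 d → ℤ) (v : Idx d → ℝ) : ENNReal :=
  ∫⁻ x : ℂ, ENNReal.ofReal (((fib a x).roots.map fun y =>
    ‖(num v x).eval y‖ ^ 2 / ‖(fib a x).derivative.eval y‖ ^ 2).sum)

/-- LAG (Lagrange interpolation with bounded coefficients).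
Proof: `Q(t) = ∑ Q(y) / G'(y) * G(t) / (t - y)` over the roots `y` of `G`. The coefficients of
`G(t) / (t - y)` are `b_k = ∑_(j > k) G_j y^(j-k-1)`, and, as `G(y) = 0`, also
`b_k = - ∑_(j ≤ k) G_j y^(j-k-1)` for `y ≠ 0`. So `|b_k| ≤ m M` (first formula for `|y| ≤ 1`, second one
for `|y| > 1`), `m = deg G`, and Cauchy-Schwarz. -/
def S_LAG : Prop := ∀ (G Q : Polynomial ℂ) (M : ℝ), Q.natDegree < G.natDegree → G.roots.Nodup →
  (∀ k, ‖G.coeff k‖ ≤ M) → ∀ j, ‖Q.coeff j‖ ^ 2 ≤ (G.natDegree : ℝ) ^ 3 * M ^ 2 *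
    (G.roots.map fun y => ‖Q.eval y‖ ^ 2 / ‖G.derivative.eval y‖ ^ 2).sum

/-- SEP. For a smooth plane curve almost all fibres of the projection are reduced and have degree at
least `d - 1`.
Proof: (degree) the coefficient of `Y^d` is the constant `a(0,0,d)`; if it is zero then the point
`(0, 0, 1)` is on the curve, and as it is not singular the coefficient of `Y^(d-1)`, which is
`a(0,1,d-1) x + a(1,0,d-1)`, is not zero for almost all `x`. (reduced) Otherwise the polynomial `f` in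
`ℂ[x][Y]` and its derivative in `Y` have resultant zero, so they have a common factor `u` of positive
degree in `Y`, irreducible in `ℂ[x, Y]`; from `u ∣ f_Y` we get `u² ∣ f`, so the form is divisible by the
square of a form of positive degree, and each zero of the latter is a singular zero. -/
def S_SEP : Prop := ∀ d : ℕ, 3 ≤ d → ∀ a : Mon 1 d → ℤ, GenSmooth a → ∃ T : Finset ℂ, ∀ x ∉ T,
  d - 1 ≤ (fib a x).natDegree ∧ (fib a x).roots.Nodup

/-- PLA. Lower bound for the norm (plane curves).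
Proof from `S_LAG`, `S_SEP`: for `|x| ≤ 1`, `x ∉ T`, the coefficients of `fib a x` are at most
`(d + 1) M`, so for each `j ≤ d - 3` (note `deg_Y (num v x) ≤ d - 3 < d - 1 ≤ deg_Y (fib a x)`) the integrand
is at least `|∑_i v_(i, j) x^i|² / (d³ (d+1)² M²)`; sum over `j`, divide by `d`, and integrate over
`|x| ≤ 1`: `∫ |∑_i v_(i,j) x^i|² = ∑_i v_(i,j)² π / (i + 1)` (or compactness as in HYP). -/
def S_PLA : Prop := ∀ d : ℕ, 3 ≤ d → ∃ κ : ℝ, 0 < κ ∧ κ ≤ 1 ∧ ∀ a : Mon 1 d → ℤ, GenSmooth a →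
  ∀ M : ℝ, 1 ≤ M → (∀ m, |(a m : ℝ)| ≤ M) → ∀ v : Idx d → ℝ,
    ENNReal.ofReal (κ / M ^ 2 * ∑ s, v s ^ 2) ≤ energyP a v

/-- DEN. The counting of project HP for an arbitrary residue class (compare `dens_main` in
`Run7/h796/HP/DENS.lean`): the primes not dividing `Q` are good or nodal. -/
def S_DEN : Prop := ∀ (n d : ℕ) (h g : MvPolynomial (Mon n d) ℤ)
    (r : Fin (n + 2) → MvPolynomial (Mon n d) ℤ), h ≠ 0 →
    IsRelPrime (map (Int.castRingHom ℚ) h) (map (Int.castRingHom ℚ) g) →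
    (∀ (k : Type) [Field k] (a : Mon n d → k) (x : Fin (n + 2) → k), x ≠ 0 → Sing a x →
      aeval a h = 0 ∧ (aeval a g ≠ 0 → aeval a (r 0) ≠ 0 ∧ x 0 ≠ 0 ∧
        (∀ i, x i * aeval a (r 0) = x 0 * aeval a (r i)) ∧ (x 0 = 1 → hess a x ≠ 0))) →
    (∀ (R : Type) [CommRing R] (a : Mon n d → R) (x : Fin (n + 2) → R), x 0 = 1 →
      aeval a h ∈ Ideal.span (insert (eval x (form a))
        (Set.range fun i : Fin (n + 1) => eval x (pderiv i.succ (form a))))) →
  ∀ ε : ℝ, 0 < ε → ∃ B : ℕ, ∀ Q : ℕ, 0 < Q → (∀ p : ℕ, p.Prime → p ≤ B → p ∣ Q) →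
    ∀ c : Mon n d → ℤ, ∃ H₀ : ℕ, ∀ H : ℕ, H₀ ≤ H →
      (1 - ε) * (2 * (H : ℝ) + 1) ^ Fintype.card (Mon n d) ≤
        (Nat.card {b : Mon n d → ℤ // (∀ m, |b m| ≤ H) ∧
          eval (fun m => c m + Q * b m) h ≠ 0 ∧ GenSmooth (fun m => c m + Q * b m) ∧
          ∀ p : ℕ, p.Prime → ¬ p ∣ Q → GoodAt (fun m => c m + Q * b m) p ∨
            NodeAt (fun m => c m + Q * b m) p} : ℝ)

/-- `(z, x, y)` is a singular point of the curve `y² + q(x) y = p(x)`, in the weighted projective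
plane: `q`, `p` are forms of degree `g + 1` and `2 g + 2` in `x`, `z` with the coefficients `q i` of
`x^i z^(g+1-i)` and `p k` of `x^k z^(2g+2-k)`. -/
def SingC {k : Type} [Field k] {g : ℕ} (q : Fin (g + 2) → k) (p : Fin (2 * g + 3) → k)
    (z x y : k) : Prop :=
  y ^ 2 + (∑ i : Fin (g + 2), q i * x ^ (i : ℕ) * z ^ (g + 1 - (i : ℕ))) * y =
    ∑ j : Fin (2 * g + 3), p j * x ^ (j : ℕ) * z ^ (2 * g + 2 - (j : ℕ)) ∧
  2 * y + (∑ i : Fin (g + 2), q i * x ^ (i : ℕ) * z ^ (g + 1 - (i : ℕ))) = 0 ∧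
  (∑ i : Fin (g + 2), ((i : ℕ) : k) * q i * x ^ ((i : ℕ) - 1) * z ^ (g + 1 - (i : ℕ))) * y =
    ∑ j : Fin (2 * g + 3), ((j : ℕ) : k) * p j * x ^ ((j : ℕ) - 1) *
      z ^ (2 * g + 2 - (j : ℕ)) ∧
  (∑ i : Fin (g + 2), ((g + 1 - (i : ℕ) : ℕ) : k) * q i * x ^ (i : ℕ) *
      z ^ (g + 1 - (i : ℕ) - 1)) * y =
    ∑ j : Fin (2 * g + 3), ((2 * g + 2 - (j : ℕ) : ℕ) : k) * p j * x ^ (j : ℕ) *
      z ^ (2 * g + 2 - (j : ℕ) - 1)

/-- The curve `y² + q(x) y = p(x)` has good reduction at the prime `l`. -/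
def GoodC {g : ℕ} (q : Fin (g + 2) → ℤ) (p : Fin (2 * g + 3) → ℤ) (l : ℕ) : Prop :=
  ∀ (k : Type) [Field k] [CharP k l] (z x y : k), ¬ (z = 0 ∧ x = 0) →
    ¬ SingC (fun i => ((q i : ℤ) : k)) (fun j => ((p j : ℤ) : k)) z x y

/-- CLS. For `q = 1` (the form `z^(g+1)`) there is a curve with good reduction at a given prime.
Proof: `l = 2`: `p = x^(2g+1) z`. `l` odd: `p = (F - z^(2g+2)) / 4` modulo `l` with
`F = x^(2g+2) + z^(2g+2)` if `l` does not divide `2g + 2`, and `F = x z (x^(2g) + z^(2g))` otherwise; a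
singular point gives a common zero of `F` and its partial derivatives. -/
def S_CLS : Prop := ∀ g : ℕ, 1 ≤ g → ∀ l : ℕ, l.Prime → ∃ p : Fin (2 * g + 3) → ℤ,
  GoodC (fun i : Fin (g + 2) => if (i : ℕ) = 0 then 1 else 0) p l

end Pool.Agent.Run7.h802.FH
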