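import Pool.Agent.Run7.h802.FH.Iface
import Pool.Agent.Run7.h796.HP.DENS

/-! Project FH: the counting and the comparison with the radical. -/

set_option autoImplicit false

namespace Pool.Agent.Run7.h802.FH

open MvPolynomial Pool.Agent.Run7.h802.HP Pool.Agent.Run7.h796.HP

theorem t_DEN (hS : S_SIEVE) (hZ : S_ZERO) (hP : S_PTS) : S_DEN := by
  classical
  intro n d h g r hh hrel p1 p2 ε hε
  have hpts := hP n d h g r p1 p2
  obtain ⟨B, hB⟩ := hS (Mon n d) h g hrel (ε / 2) (by positivity)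
  refine ⟨B, fun Q hQ hQB c => ?_⟩
  obtain ⟨H₁, hH₁⟩ := hB Q hQ hQB c
  obtain ⟨H₂, hH₂⟩ := hZ (Mon n d) h hh (ε / 2) (by positivity) Q hQ c
  refine ⟨max H₁ H₂, fun H hH => ?_⟩
  have b1 := hH₁ H ((le_max_left _ _).trans hH)
  have b2 := hH₂ H ((le_max_right _ _).trans hH)
  have hcov := card_cover (σ := Mon n d) H
    (fun b => ∃ p : ℕ, p.Prime ∧ ¬ p ∣ Q ∧ (p : ℤ) ∣ eval (fun i => c i + Q * b i) h ∧
      (p : ℤ) ∣ eval (fun i => c i + Q * b i) g)
    (fun b => eval (fun i => c i + Q * b i) h = 0)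
    (fun b => eval (fun m => c m + Q * b m) h ≠ 0 ∧ GenSmooth (fun m => c m + Q * b m) ∧
          ∀ p : ℕ, p.Prime → ¬ p ∣ Q → GoodAt (fun m => c m + Q * b m) p ∨
            NodeAt (fun m => c m + Q * b m) p) (fun b q1 q2 => ?_)
  · linarith
  · have key := hpts (fun m => c m + Q * b m) q2
    refine ⟨q2, key.1, fun p hp hpQ => ?_⟩
    apply key.2 p hp
    rintro ⟨u, v⟩
    exact q1 ⟨p, hp, hpQ, u, v⟩

/-- The comparison of the height with the product of the bad primes. -/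
theorem core1 {n d : ℕ} (h : MvPolynomial (Mon n d) ℤ) (M₀ : ℕ)
    (hres : ∀ p : ℕ, p.Prime → M₀ < p → ∀ a : Mon n d → ℤ, (p : ℤ) ∣ eval a h → ¬ GoodAt a p)
    (κ₀ ε C₀ C₁ : ℝ) (hκ : 0 ≤ κ₀) (hε : 0 < ε) (hC₁ : 0 < C₁) :
    ∃ H₁ : ℕ, 2 ≤ H₁ ∧ ∀ H : ℕ, H₁ ≤ H → ∀ a : Mon n d → ℤ,
      ¬ ((rad (eval a h) : ℝ) < (H : ℝ) ^ (1 - ε / (2 * (κ₀ + ε)))) →
      eval a h ≠ 0 ∧ ∀ W : ℕ, W ≠ 0 → (∀ p : ℕ, p.Prime → p ≠ 2 → ¬ GoodAt a p → p ∣ W) →
        κ₀ * Real.log (C₁ * H) + C₀ ≤ (κ₀ + ε) * Real.log W := by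
  classical
  set δ : ℝ := ε / (2 * (κ₀ + ε)) with hδ
  have hκε : 0 < κ₀ + ε := by linarith
  have hδ0 : 0 < δ := by positivity
  have hδ1 : δ ≤ 1 / 2 := by
    rw [hδ, div_le_div_iff₀ (by positivity) (by norm_num)]
    linarith
  set P₀ : ℕ := ∏ p ∈ (Finset.range (max M₀ 2 + 1)).filter Nat.Prime, p with hP₀
  have hP₀0 : P₀ ≠ 0 := by
    rw [hP₀]
    exact Finset.prod_ne_zero_iff.2 fun p hp => (Finset.mem_filter.1 hp).2.ne_zero
  have hP₀1 : (1 : ℝ) ≤ P₀ := by exact_mod_cast Nat.one_le_iff_ne_zero.2 hP₀0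
  -- the threshold
  set K : ℝ := (κ₀ + ε) * Real.log P₀ + |C₀| + κ₀ * |Real.log C₁| with hK
  obtain ⟨H₁, hH₁⟩ := exists_nat_gt (Real.exp (2 * K / ε))
  refine ⟨max H₁ 2, le_max_right _ _, fun H hH a hr => ?_⟩
  have hH2 : 2 ≤ H := (le_max_right _ _).trans hH
  have hHr : (2 : ℝ) ≤ H := by exact_mod_cast hH2
  have hH0 : (0 : ℝ) < H := by linarith
  have hlogH : 2 * K / ε ≤ Real.log H := by
    rw [← Real.log_exp (2 * K / ε)]
    apply Real.log_le_log (Real.exp_pos _)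
    have : (H₁ : ℝ) ≤ H := by exact_mod_cast (le_max_left _ _).trans hH
    linarith
  have hr' : (H : ℝ) ^ (1 - δ) ≤ rad (eval a h) := not_lt.1 hr
  have hgt1 : (1 : ℝ) < (H : ℝ) ^ (1 - δ) :=
    Real.one_lt_rpow (by linarith) (by linarith)
  have hne : eval a h ≠ 0 := by
    intro h0
    rw [h0] at hr'
    have : rad 0 = 1 := by simp [rad]
    rw [this] at hr'
    push_cast at hr'
    linarith
  refine ⟨hne, fun W hW hWp => ?_⟩
  have hdvd : rad (eval a h) ∣ W * P₀ := by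
    unfold rad
    apply Finset.prod_primes_dvd
    · intro p hp
      exact (Nat.prime_of_mem_primeFactors hp).prime
    · intro p hp
      have hpp := Nat.prime_of_mem_primeFactors hp
      by_cases hpM : p ≤ max M₀ 2
      · apply Dvd.dvd.mul_left
        apply Finset.dvd_prod_of_mem (fun p => p)
        simp only [Finset.mem_filter, Finset.mem_range]
        exact ⟨by omega, hpp⟩
      · push Not at hpM
        apply Dvd.dvd.mul_right
        have hM : M₀ < p := (le_max_left _ _).trans_lt hpM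
        have h2 : p ≠ 2 := by
          have := (le_max_right M₀ 2).trans_lt hpM
          omega
        refine hWp p hpp h2 (hres p hpp hM a ?_)
        have := Nat.dvd_of_mem_primeFactors hp
        exact Int.natCast_dvd.2 this
  have hle : (rad (eval a h) : ℝ) ≤ W * P₀ := by
    exact_mod_cast Nat.le_of_dvd (Nat.pos_of_ne_zero (mul_ne_zero hW hP₀0)) hdvd
  have hW0 : (0 : ℝ) < W := by exact_mod_cast Nat.pos_of_ne_zero hW
  have hlog : (1 - δ) * Real.log H ≤ Real.log W + Real.log P₀ := by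
    rw [← Real.log_mul hW0.ne' (by linarith), ← Real.log_rpow hH0]
    exact Real.log_le_log (by positivity) (hr'.trans hle)
  have h1 : Real.log (C₁ * H) = Real.log C₁ + Real.log H := Real.log_mul hC₁.ne' hH0.ne'
  have h2 : κ₀ * Real.log C₁ ≤ κ₀ * |Real.log C₁| :=
    mul_le_mul_of_nonneg_left (le_abs_self _) hκ
  have h3 : C₀ ≤ |C₀| := le_abs_self _
  have h4 : K ≤ ε / 2 * Real.log H := by
    have h5 := mul_le_mul_of_nonneg_left hlogH (show (0 : ℝ) ≤ ε / 2 by positivity)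
    have h6 : ε / 2 * (2 * K / ε) = K := by field_simp
    rwa [h6] at h5
  have h7 : (κ₀ + ε) * (1 - δ) = κ₀ + ε / 2 := by
    rw [hδ]
    field_simp
    ring
  have h8 : (κ₀ + ε / 2) * Real.log H ≤ (κ₀ + ε) * Real.log W + (κ₀ + ε) * Real.log P₀ := by
    rw [← h7, mul_assoc, ← mul_add]
    exact mul_le_mul_of_nonneg_left hlog hκε.le
  rw [h1]
  have h9 : (κ₀ + ε / 2) * Real.log H = κ₀ * Real.log H + ε / 2 * Real.log H := by ring
  rw [h9] at h8
  have h10 : κ₀ * (Real.log C₁ + Real.log H) = κ₀ * Real.log C₁ + κ₀ * Real.log H := by ring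
  rw [h10]
  rw [hK] at h4
  linarith

/-- From density in the classes to positive proportion. -/
theorem pos_of_class {σ : Type} [Fintype σ] (Model : (σ → ℤ) → Prop) (Q : ℕ) (hQ0 : 0 < Q)
    (c : σ → ℤ) (H₀ : ℕ)
    (hB : ∀ H : ℕ, H₀ ≤ H → (1 / 2 : ℝ) * (2 * (H : ℝ) + 1) ^ Fintype.card σ ≤
      (Nat.card {b : σ → ℤ // (∀ m, |b m| ≤ H) ∧ Model fun m => c m + Q * b m} : ℝ)) :
    ∃ δ : ℝ, 0 < δ ∧ ∃ H₀ : ℕ, ∀ H : ℕ, H₀ ≤ H →
      δ * (2 * (H : ℝ) + 1) ^ Fintype.card σ ≤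
        (Nat.card {a : σ → ℤ // (∀ m, |a m| ≤ H) ∧ Model a} : ℝ) := by
  classical
  obtain ⟨C, hC⟩ : ∃ C : ℕ, ∀ m, |c m| ≤ C := by
    refine ⟨∑ m, (c m).natAbs, fun m => ?_⟩
    have : (c m).natAbs ≤ ∑ m, (c m).natAbs :=
      Finset.single_le_sum (f := fun m => (c m).natAbs) (fun _ _ => Nat.zero_le _)
        (Finset.mem_univ m)
    rw [Int.abs_eq_natAbs]
    exact_mod_cast this
  refine ⟨1 / 2 * (1 / (2 * (Q : ℝ))) ^ Fintype.card σ, by positivity,
    Q * H₀ + 4 * C + 2 * Q + 1, fun H hH => ?_⟩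
  set H' : ℕ := (H - C) / Q with hH'
  have hH'0 : H₀ ≤ H' := by
    rw [hH', Nat.le_div_iff_mul_le hQ0, mul_comm]
    omega
  have key := hB H' hH'0
  have hle : Q * H' + C ≤ H := by
    have h1 : Q * H' ≤ H - C := Nat.mul_div_le (H - C) Q
    have h2 : C ≤ H := by
      have : 0 ≤ Q * H₀ := Nat.zero_le _
      linarith
    omega
  have hge : H - C < Q * H' + Q := by
    have := Nat.lt_mul_div_succ (H - C) hQ0
    rw [Nat.mul_add, mul_one] at this
    exact this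
  have hinj : Nat.card {b : σ → ℤ // (∀ m, |b m| ≤ H') ∧ Model fun m => c m + Q * b m} ≤
      Nat.card {a : σ → ℤ // (∀ m, |a m| ≤ H) ∧ Model a} := by
    rw [natcard_box, natcard_box]
    apply Finset.card_le_card_of_injOn (fun b m => c m + Q * b m)
    · intro b hb
      rw [Finset.mem_coe, Finset.mem_filter, mem_box] at hb
      rw [Finset.mem_coe, Finset.mem_filter, mem_box]
      refine ⟨fun m => ?_, hb.2⟩
      have h1 := hb.1 m
      have h2 := hC m
      have h3 : |c m + Q * b m| ≤ |c m| + Q * |b m| := by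
        calc |c m + Q * b m| ≤ |c m| + |(Q : ℤ) * b m| := abs_add_le _ _
          _ = |c m| + Q * |b m| := by rw [abs_mul, Nat.abs_cast]
      have h4 : (Q : ℤ) * |b m| ≤ Q * H' := mul_le_mul_of_nonneg_left h1 (by positivity)
      have h5 : (Q : ℤ) * H' + C ≤ H := by exact_mod_cast hle
      linarith
    · intro b _ b' _ hbb
      funext m
      have h1 := congrFun hbb m
      simp only [add_right_inj] at h1
      exact mul_left_cancel₀ (by exact_mod_cast hQ0.ne') h1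
  have hinj' : (Nat.card {b : σ → ℤ // (∀ m, |b m| ≤ H') ∧
      Model fun m => c m + Q * b m} : ℝ) ≤
      (Nat.card {a : σ → ℤ // (∀ m, |a m| ≤ H) ∧ Model a} : ℝ) := by exact_mod_cast hinj
  refine le_trans ?_ (key.trans hinj')
  have hQr : (0 : ℝ) < Q := by exact_mod_cast hQ0
  have hcmp : 1 / (2 * (Q : ℝ)) * (2 * (H : ℝ) + 1) ≤ 2 * (H' : ℝ) + 1 := by
    rw [div_mul_eq_mul_div, one_mul, div_le_iff₀ (by positivity)]
    have e1 : (H : ℝ) < Q * H' + Q + C := by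
      have : H < Q * H' + Q + C := by omega
      exact_mod_cast this
    have e2 : (Q : ℝ) * H₀ + 4 * C + 2 * Q + 1 ≤ H := by exact_mod_cast hH
    have e3 : (0 : ℝ) ≤ Q * H₀ := by positivity
    nlinarith
  calc 1 / 2 * (1 / (2 * (Q : ℝ))) ^ Fintype.card σ *
        (2 * (H : ℝ) + 1) ^ Fintype.card σ
      = 1 / 2 * (1 / (2 * (Q : ℝ)) * (2 * (H : ℝ) + 1)) ^ Fintype.card σ := by
        rw [mul_pow]; ring
    _ ≤ 1 / 2 * (2 * (H' : ℝ) + 1) ^ Fintype.card σ := by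
        apply mul_le_mul_of_nonneg_left _ (by norm_num)
        exact pow_le_pow_left₀ (by positivity) hcmp _

end Pool.Agent.Run7.h802.FH
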