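import Pool.Agent.Run7.h802.FH.HypGen

/-! Project FH: the discriminant of a binary form. -/

set_option autoImplicit false

namespace Pool.Agent.Run7.h802.FH

open Polynomial

/-- The derivative with respect to `x` of `∑ F_k x^k z^(D - k)` at `z = 1`. -/
noncomputable def dX {D : ℕ} (F : Fin (D + 1) → ℤ) : ℝ[X] :=
  ∑ k : Fin (D + 1), C (((k : ℕ) : ℝ) * (F k : ℝ)) * X ^ ((k : ℕ) - 1)

/-- The derivative with respect to `z` of `∑ F_k x^k z^(D - k)` at `z = 1`. -/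
noncomputable def dZ {D : ℕ} (F : Fin (D + 1) → ℤ) : ℝ[X] :=
  ∑ k : Fin (D + 1), C (((D - (k : ℕ) : ℕ) : ℝ) * (F k : ℝ)) * X ^ (k : ℕ)

/-- The absolute value of the resultant of the two derivatives. -/
noncomputable def resF {D : ℕ} (F : Fin (D + 1) → ℤ) : ℝ :=
  |resultant (dX F) (dZ F) (D - 1) (D - 1)|

theorem coeff_sum_le {D : ℕ} (c : Fin (D + 1) → ℝ) (e : Fin (D + 1) → ℕ) (B : ℝ)
    (hc : ∀ k, |c k| ≤ B) (n : ℕ) :
    |(∑ k, C (c k) * X ^ e k : ℝ[X]).coeff n| ≤ ((D : ℝ) + 1) * B := by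
  rw [finsetSum_coeff]
  refine (Finset.abs_sum_le_sum_abs _ _).trans ?_
  have h1 : ∀ k ∈ Finset.univ, |(C (c k) * X ^ e k : ℝ[X]).coeff n| ≤ B := by
    intro k _
    rw [coeff_C_mul, coeff_X_pow]
    have h2 : 0 ≤ B := (abs_nonneg _).trans (hc k)
    split_ifs
    · rw [mul_one]
      exact hc k
    · rw [mul_zero, abs_zero]
      exact h2
  refine (Finset.sum_le_card_nsmul _ _ _ h1).trans ?_
  rw [Finset.card_univ, Fintype.card_fin, nsmul_eq_mul]
  push_cast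
  exact le_rfl

theorem resF_le {D : ℕ} (F : Fin (D + 1) → ℤ) (M : ℝ) (hM : 1 ≤ M) (hF : ∀ k, |(F k : ℝ)| ≤ M) :
    resF F ≤ ((D - 1 + (D - 1)).factorial : ℝ) *
      (((D : ℝ) + 1) * (D * M)) ^ (D - 1 + (D - 1)) := by
  have hM0 : (0 : ℝ) ≤ M := by linarith
  have h1 : ∀ n, |(dX F).coeff n| ≤ ((D : ℝ) + 1) * (D * M) := by
    intro n
    unfold dX
    refine coeff_sum_le _ _ _ (fun k => ?_) n
    rw [abs_mul, abs_of_nonneg (Nat.cast_nonneg _)]
    have hk : ((k : ℕ) : ℝ) ≤ D := by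
      have := k.2
      exact_mod_cast (by omega : (k : ℕ) ≤ D)
    exact mul_le_mul hk (hF k) (abs_nonneg _) (Nat.cast_nonneg _)
  have h2 : ∀ n, |(dZ F).coeff n| ≤ ((D : ℝ) + 1) * (D * M) := by
    intro n
    unfold dZ
    refine coeff_sum_le _ _ _ (fun k => ?_) n
    rw [abs_mul, abs_of_nonneg (Nat.cast_nonneg _)]
    have hk : ((D - (k : ℕ) : ℕ) : ℝ) ≤ D := by
      exact_mod_cast Nat.sub_le _ _
    exact mul_le_mul hk (hF k) (abs_nonneg _) (Nat.cast_nonneg _)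
  have h0 : (0 : ℝ) ≤ ((D : ℝ) + 1) * (D * M) := by positivity
  unfold resF resultant
  have key := Matrix.det_le (A := sylvester (dX F) (dZ F) (D - 1) (D - 1))
    (abv := AbsoluteValue.abs) (x := ((D : ℝ) + 1) * (D * M)) ?_
  · rw [Fintype.card_fin, nsmul_eq_mul] at key
    exact key
  · intro i j
    change |sylvester (dX F) (dZ F) (D - 1) (D - 1) i j| ≤ _
    unfold sylvester
    rw [Matrix.of_apply]
    refine Fin.addCases (fun j₁ => ?_) (fun j₁ => ?_) j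
    · rw [Fin.addCases_left]
      split_ifs
      · exact h2 _
      · rw [abs_zero]
        exact h0
    · rw [Fin.addCases_right]
      split_ifs
      · exact h1 _
      · rw [abs_zero]
        exact h0

/-- The absolute value of the discriminant of the Weierstrass model. -/
noncomputable def discF {g : ℕ} (F : Fin (2 * g + 3) → ℤ) : ℝ :=
  resF (D := 2 * g + 2) F / (((2 * g + 2 : ℕ) : ℝ) ^ (2 * g) * 2 ^ (4 * g + 4))

theorem log_discF_le (g : ℕ) : ∃ C₀ : ℝ, ∀ (F : Fin (2 * g + 3) → ℤ) (M : ℝ), 1 ≤ M →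
    (∀ k, |(F k : ℝ)| ≤ M) →
      Real.log (discF F) ≤ (4 * (g : ℝ) + 2) * Real.log M + C₀ := by
  set K : ℝ := ((4 * g + 2).factorial : ℝ) *
      ((((2 * g + 2 : ℕ) : ℝ) + 1) * ((2 * g + 2 : ℕ) : ℝ)) ^ (4 * g + 2) with hK
  have hK1 : 1 ≤ K := by
    have e1 : (1 : ℝ) ≤ ((4 * g + 2).factorial : ℝ) := by
      exact_mod_cast Nat.one_le_iff_ne_zero.2 (Nat.factorial_ne_zero _)
    have e2 : (1 : ℝ) ≤ (((2 * g + 2 : ℕ) : ℝ) + 1) * ((2 * g + 2 : ℕ) : ℝ) := by
      have : (1 : ℝ) ≤ ((2 * g + 2 : ℕ) : ℝ) := by exact_mod_cast (by omega : 1 ≤ 2 * g + 2)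
      nlinarith
    exact one_le_mul_of_one_le_of_one_le e1 (one_le_pow₀ e2)
  refine ⟨Real.log K, fun F M hM hF => ?_⟩
  have hM0 : (0 : ℝ) < M := by linarith
  have hden : (1 : ℝ) ≤ ((2 * g + 2 : ℕ) : ℝ) ^ (2 * g) * 2 ^ (4 * g + 4) := by
    have e1 : (1 : ℝ) ≤ ((2 * g + 2 : ℕ) : ℝ) ^ (2 * g) :=
      one_le_pow₀ (by exact_mod_cast (by omega : 1 ≤ 2 * g + 2))
    have e2 : (1 : ℝ) ≤ (2 : ℝ) ^ (4 * g + 4) := one_le_pow₀ (by norm_num)
    exact one_le_mul_of_one_le_of_one_le e1 e2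
  have h1 := resF_le (D := 2 * g + 2) F M hM hF
  have h2 : 2 * g + 2 - 1 + (2 * g + 2 - 1) = 4 * g + 2 := by omega
  rw [h2] at h1
  have h3 : discF F ≤ K * M ^ (4 * g + 2) := by
    have e0 : 0 ≤ resF (D := 2 * g + 2) F := abs_nonneg _
    calc discF F ≤ resF (D := 2 * g + 2) F := div_le_self e0 hden
      _ ≤ _ := h1
      _ = K * M ^ (4 * g + 2) := by
        rw [hK, mul_assoc, ← mul_pow]
        congr 2
        ring
  have hRHS : 0 ≤ (4 * (g : ℝ) + 2) * Real.log M + Real.log K := by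
    have := Real.log_nonneg hM
    have := Real.log_nonneg hK1
    positivity
  by_cases hpos : 0 < discF F
  · refine (Real.log_le_log hpos h3).trans (le_of_eq ?_)
    rw [Real.log_mul (by positivity) (by positivity), Real.log_pow]
    push_cast
    ring
  · have e0 : discF F = 0 := by
      refine le_antisymm (not_lt.1 hpos) ?_
      unfold discF resF
      positivity
    rw [e0, Real.log_zero]
    exact hRHS

end Pool.Agent.Run7.h802.FH
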