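import Pool.Agent.Run7.h802.FH.Iface2

/-! Project FH, piece HOM: homogenization. -/

set_option autoImplicit false

namespace Pool.Agent.Run7.h802.FH

open MvPolynomial

theorem t_HOM : S_HOM := by
  intro N G
  classical
  refine ⟨G.totalDegree, ∑ m ∈ G.support,
    monomial (Finsupp.cons (G.totalDegree - m.degree) m) (coeff m G), ?_, ?_⟩
  · apply IsHomogeneous.sum
    intro m hm
    apply isHomogeneous_monomial
    have h1 : m.degree ≤ G.totalDegree := by
      have := le_totalDegree hm
      simpa [Finsupp.degree_apply, Finsupp.sum] using this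
    rw [Finsupp.degree_eq_sum, Fin.sum_univ_succ]
    simp only [Finsupp.cons_zero, Finsupp.cons_succ]
    rw [← Finsupp.degree_eq_sum]
    omega
  · intro R _ b
    rw [map_sum]
    conv_rhs => rw [G.as_sum, map_sum]
    refine Finset.sum_congr rfl fun m _ => ?_
    rw [aeval_monomial, aeval_monomial, Finsupp.prod_fintype _ _ (fun i => pow_zero _),
      Finsupp.prod_fintype _ _ (fun i => pow_zero _), Fin.prod_univ_succ]
    simp

end Pool.Agent.Run7.h802.FH
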