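import Pool.Agent.Run7.h802.FH.Main

/-! Project FH: binary forms and hyperelliptic curves. -/

set_option autoImplicit false

namespace Pool.Agent.Run7.h802.FH

open MvPolynomial MeasureTheory Pool.Agent.Run7.h802.HP Pool.Agent.Run7.h796.HP

/-- The binary form with the coefficients `a`. -/
noncomputable def bf {R : Type} [CommRing R] {D : ℕ} (a : Fin (D + 1) → R) :
    MvPolynomial (Fin 2) R :=
  ∑ k, C (a k) * (X 0 ^ (D - (k : ℕ)) * X 1 ^ (k : ℕ))

/-- `(x, y)` is a singular point of the curve `y² + q(x) y = p(x)`. -/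
def SingB {R : Type} [CommRing R] {g : ℕ} (q : Fin (g + 2) → R) (p : Fin (2 * g + 3) → R)
    (x : Fin 2 → R) (y : R) : Prop :=
  y ^ 2 + eval x (bf q) * y = eval x (bf p) ∧ 2 * y + eval x (bf q) = 0 ∧
    ∀ i, eval x (pderiv i (bf q)) * y = eval x (pderiv i (bf p))

/-- The exponents of the monomials in two variables. -/
def eMon (D : ℕ) : Fin (D + 1) ≃ Mon 0 D where
  toFun k := ⟨fun i => if i = 0 then ⟨D - (k : ℕ), by omega⟩ else k, by
    rw [Fin.sum_univ_two]
    simp
    omega⟩
  invFun m := m.1 1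
  left_inv k := by simp
  right_inv m := by
    obtain ⟨m, hm⟩ := m
    have h0 : (m 0 : ℕ) + (m 1 : ℕ) = D := by
      have := hm
      rw [Fin.sum_univ_two] at this
      exact this
    apply Subtype.ext
    funext i
    have hi : i = 0 ∨ i = 1 := by
      have : ∀ j : Fin (0 + 2), j = 0 ∨ j = 1 := by decide
      exact this i
    rcases hi with rfl | rfl
    · simp only [if_true]
      apply Fin.ext
      simp only
      omega
    · simp

theorem eMon_zero (D : ℕ) (k : Fin (D + 1)) : (((eMon D k).1 0 : Fin (D + 1)) : ℕ) = D - (k : ℕ) := by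
  simp [eMon]

theorem eMon_one (D : ℕ) (k : Fin (D + 1)) : (((eMon D k).1 1 : Fin (D + 1)) : ℕ) = (k : ℕ) := by
  simp [eMon]

theorem form_eq {R : Type} [CommRing R] {D : ℕ} (a : Fin (D + 1) → R) :
    form (n := 0) (d := D) (fun m => a ((eMon D).symm m)) = bf a := by
  unfold form bf
  rw [← (eMon D).sum_comp]
  refine Finset.sum_congr rfl fun k _ => ?_
  simp only [Equiv.symm_apply_apply]
  rw [Fin.prod_univ_two]
  have h0 := eMon_zero D k
  have h1 := eMon_one D k
  rw [h0, h1]

/-- The coefficients of the square of a form. -/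
def sqv {R : Type} [CommRing R] {g : ℕ} (q : Fin (g + 2) → R) (k : Fin (2 * g + 3)) : R :=
  ∑ i : Fin (g + 2), ∑ j : Fin (g + 2), if (i : ℕ) + (j : ℕ) = (k : ℕ) then q i * q j else 0

theorem bf_sqv {R : Type} [CommRing R] {g : ℕ} (q : Fin (g + 2) → R) :
    bf (D := 2 * g + 2) (sqv q) = bf (D := g + 1) q ^ 2 := by
  unfold bf sqv
  rw [sq, Finset.sum_mul_sum]
  simp only [map_sum, Finset.sum_mul]
  rw [Finset.sum_comm]
  refine Finset.sum_congr rfl fun i _ => ?_
  rw [Finset.sum_comm]
  refine Finset.sum_congr rfl fun j _ => ?_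
  have hi := i.2
  have hj := j.2
  rw [Finset.sum_eq_single (⟨(i : ℕ) + (j : ℕ), by omega⟩ : Fin (2 * g + 3))]
  · simp only [if_true]
    have h1 : 2 * g + 2 - ((i : ℕ) + (j : ℕ)) = (g + 1 - (i : ℕ)) + (g + 1 - (j : ℕ)) := by omega
    rw [h1, pow_add, pow_add, map_mul]
    ring
  · intro k _ hk
    rw [if_neg, map_zero, zero_mul]
    intro h
    apply hk
    apply Fin.ext
    exact h.symm
  · intro h
    exact absurd (Finset.mem_univ _) h

/-- The coefficients of `F = q² + 4 p`. -/
def Fv {R : Type} [CommRing R] {g : ℕ} (q : Fin (g + 2) → R) (p : Fin (2 * g + 3) → R)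
    (k : Fin (2 * g + 3)) : R := sqv q k + 4 * p k

theorem bf_add {R : Type} [CommRing R] {D : ℕ} (a b : Fin (D + 1) → R) (c : R) :
    bf (fun k => a k + c * b k) = bf a + C c * bf b := by
  unfold bf
  rw [Finset.mul_sum, ← Finset.sum_add_distrib]
  refine Finset.sum_congr rfl fun k _ => ?_
  rw [map_add, map_mul]
  ring

theorem bf_Fv {R : Type} [CommRing R] {g : ℕ} (q : Fin (g + 2) → R) (p : Fin (2 * g + 3) → R) :
    bf (D := 2 * g + 2) (Fv q p) = bf (D := g + 1) q ^ 2 + 4 * bf (D := 2 * g + 2) p := by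
  have h := bf_add (D := 2 * g + 2) (sqv q) p 4
  rw [bf_sqv] at h
  have h4 : (C (4 : R) : MvPolynomial (Fin 2) R) = 4 := map_ofNat C 4
  rw [h4] at h
  exact h

theorem pderiv_Fv {R : Type} [CommRing R] {g : ℕ} (q : Fin (g + 2) → R) (p : Fin (2 * g + 3) → R)
    (i : Fin 2) : pderiv i (bf (D := 2 * g + 2) (Fv q p)) =
      2 * bf (D := g + 1) q * pderiv i (bf (D := g + 1) q) +
        4 * pderiv i (bf (D := 2 * g + 2) p) := by
  have h4 : (C (4 : R) : MvPolynomial (Fin 2) R) = 4 := map_ofNat C 4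
  rw [bf_Fv, map_add, pderiv_pow, ← h4, pderiv_C_mul]
  simp

/-- Singular points of the curve and singular zeros of `F` (`2` invertible). -/
theorem sing_of_singB {k : Type} [Field k] {g : ℕ} (q : Fin (g + 2) → k) (p : Fin (2 * g + 3) → k)
    (x : Fin 2 → k) (y : k) (h : SingB q p x y) :
    Sing (n := 0) (d := 2 * g + 2) (fun m => Fv q p ((eMon _).symm m)) x := by
  obtain ⟨h1, h2, h3⟩ := h
  unfold Sing
  rw [form_eq]
  refine ⟨?_, fun i => ?_⟩
  · rw [bf_Fv]
    simp only [map_add, map_pow, map_mul, map_ofNat]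
    rw [← h1]
    linear_combination (2 * y + eval x (bf q)) * h2
  · have := pderiv_Fv q p i
    rw [show pderiv i (bf (D := 2 * g + 2) (Fv q p)) = _ from this]
    simp only [map_add, map_mul, map_ofNat]
    rw [← h3 i]
    linear_combination 2 * eval x (pderiv i (bf q)) * h2

theorem singB_of_sing {k : Type} [Field k] (h20 : (2 : k) ≠ 0) {g : ℕ} (q : Fin (g + 2) → k)
    (p : Fin (2 * g + 3) → k) (x : Fin 2 → k) (y : k) (hy : 2 * y + eval x (bf q) = 0)
    (h : Sing (n := 0) (d := 2 * g + 2) (fun m => Fv q p ((eMon _).symm m)) x) :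
    SingB q p x y := by
  unfold Sing at h
  rw [form_eq] at h
  obtain ⟨h1, h2⟩ := h
  have h4 : (4 : k) ≠ 0 := by
    have : (4 : k) = 2 * 2 := by norm_num
    rw [this]
    exact mul_ne_zero h20 h20
  rw [bf_Fv] at h1
  simp only [map_add, map_pow, map_mul, map_ofNat] at h1
  refine ⟨?_, hy, fun i => ?_⟩
  · apply mul_left_cancel₀ h4
    linear_combination (2 * y + eval x (bf q)) * hy - h1
  · have h3 := h2 i
    rw [show pderiv i (bf (D := 2 * g + 2) (Fv q p)) = _ from pderiv_Fv q p i] at h3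
    simp only [map_add, map_mul, map_ofNat] at h3
    apply mul_left_cancel₀ h4
    linear_combination 2 * eval x (pderiv i (bf q)) * hy - h3

end Pool.Agent.Run7.h802.FH
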