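import Pool.Agent.Run7.h802.FH.HypMain2

/-! Project FH: hyperelliptic curves, the main theorem for an arbitrary function `ht` of `q² + 4 p` in
place of the height. -/

set_option autoImplicit false

namespace Pool.Agent.Run7.h802.FH

open MvPolynomial MeasureTheory Pool.Agent.Run7.h802.HP Pool.Agent.Run7.h796.HP

/-- The inequality for the curve. -/
def BdG {g : ℕ} (ht : (Fin (2 * g + 3) → ℤ) → ℝ) (κ : ℝ) (q : Fin (g + 2) → ℤ)
    (p : Fin (2 * g + 3) → ℤ) : Prop :=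
  {l : ℕ | l.Prime ∧ ¬ GoodB q p l}.Finite ∧
  ∀ W : ℕ, W ≠ 0 → (∀ l : ℕ, l.Prime → ¬ GoodB q p l → l ∣ W) →
    ht (Fv q p) ≤ κ * Real.log W

theorem bdG_of {g : ℕ} (ht : (Fin (2 * g + 3) → ℤ) → ℝ) (κ : ℝ) (q : Fin (g + 2) → ℤ)
    (p : Fin (2 * g + 3) → ℤ)
    (h : Bd (fun a => ht fun k => a (eMon (2 * g + 2) k)) κ (FM q p)) : BdG ht κ q p := by
  refine ⟨h.1.subset ?_, fun W hW hb => ?_⟩
  · rintro l ⟨hl, hbad⟩
    exact ⟨hl, fun hg => hbad (goodB_of_goodAt q p l hg)⟩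
  · have h1 : (fun k => FM q p (eMon (2 * g + 2) k)) = Fv q p := by
      funext k
      unfold FM
      simp only [Equiv.symm_apply_apply]
    have h2 := h.2 W hW fun l hl hl2 hbad => hb l hl fun hg => hbad
      (goodAt_of_goodB q p l hl hl2 hg)
    simp only [h1] at h2
    exact h2

theorem hyp_gen (hRES : S_RES) (hRAD : S_RAD2) (hNL : S_NL) (hDEN : S_DEN)
    (g : ℕ) (hg : 1 ≤ g) (ht : (Fin (2 * g + 3) → ℤ) → ℝ) (κ₀ C₀ : ℝ) (hκ : 0 ≤ κ₀)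
    (hb : ∀ (F : Fin (2 * g + 3) → ℤ) (M : ℝ), 1 ≤ M → (∀ k, |(F k : ℝ)| ≤ M) →
      ht F ≤ κ₀ * Real.log M + C₀) (ε : ℝ) (hε : 0 < ε) :
    (∀ q : Fin (g + 2) → ℤ, ∃ C η : ℝ, 0 < η ∧ ∀ H : ℕ, 1 ≤ H →
      (Nat.card {p : Fin (2 * g + 3) → ℤ // (∀ k, |p k| ≤ H) ∧
        (SmoothB q p ∧ ¬ BdG ht (κ₀ / 2 + ε) q p)} : ℝ) ≤
          C * (H : ℝ) ^ (2 * (g : ℝ) + 3 - η)) ∧
    (∀ ε₁ : ℝ, 0 < ε₁ → ∃ B : ℕ, ∀ Q : ℕ, 0 < Q → (∀ l : ℕ, l.Prime → l ≤ B → l ∣ Q) →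
      ∀ (q : Fin (g + 2) → ℤ) (p : Fin (2 * g + 3) → ℤ),
        (∀ l : ℕ, l.Prime → l ∣ Q → GoodB q p l) → ∃ H₀ : ℕ, ∀ H : ℕ, H₀ ≤ H →
        (1 - ε₁) * (2 * (H : ℝ) + 1) ^ (2 * g + 3) ≤
          (Nat.card {b : Fin (2 * g + 3) → ℤ // (∀ k, |b k| ≤ H) ∧
            (SmoothB q (fun k => p k + Q * b k) ∧
            (∀ l : ℕ, l.Prime → GoodB q (fun k => p k + Q * b k) l ∨
              NodeB q (fun k => p k + Q * b k) l) ∧
            BdG ht (κ₀ / 2 + ε) q (fun k => p k + Q * b k))} : ℝ)) := by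
  classical
  obtain ⟨h, gg, r, M₀, hh, hrel, p1, p2, hconst, hres⟩ := hRES 0 (2 * g + 2) (by omega)
  have hz : ∀ (k : Type) [Field k] (a : Mon 0 (2 * g + 2) → k) (x : Fin (0 + 2) → k), x ≠ 0 →
      Sing a x → aeval a h = 0 := fun k _ a x hx hs => (p1 k a x hx hs).1
  constructor
  · intro q
    obtain ⟨C, η, hη, hs⟩ := saving2 h M₀ (hNL 0 (2 * g + 2) (by omega) h hh hz) hres hz (fun a => ht fun k => a (eMon (2 * g + 2) k)) κ₀ C₀ hκ
      (fun a M hM _ ha => hb _ M hM fun k => ha _) hRAD 4 (by norm_num)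
      (FM q fun _ => 0) ε hε
    refine ⟨C, η, hη, fun H hH => ?_⟩
    have h1 := hs H hH
    rw [card_Mon] at h1
    have h2 : ((2 * g + 2 + 1 : ℕ) : ℝ) - η = 2 * (g : ℝ) + 3 - η := by push_cast; ring
    rw [h2] at h1
    refine le_trans ?_ h1
    have h3 := card_transfer (2 * g + 2) H (fun p => SmoothB q p ∧ ¬ BdG ht (κ₀ / 2 + ε) q p)
    rw [h3]
    apply nat_mono
    intro b _ hb
    have h4 : FM q (fun k => b (eMon (2 * g + 2) k)) =
        fun m => FM q (fun _ => 0) m + ((4 : ℕ) : ℤ) * b m := by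
      have := FM_add q (fun _ => 0) 1 b
      simpa using this
    constructor
    · rw [← h4]
      exact genSmooth_of _ _ hb.1
    · rw [← h4]
      exact fun hc => hb.2 (bdG_of _ _ _ _ hc)
  · intro ε₁ hε₁
    obtain ⟨B, hB⟩ := classes2 h M₀ (hNL 0 (2 * g + 2) (by omega) h hh hz) hres hz (fun a => ht fun k => a (eMon (2 * g + 2) k)) κ₀ C₀ hκ
      (fun a M hM _ ha => hb _ M hM fun k => ha _) hRAD hDEN hh gg r hrel p1 p2
      ε hε ε₁ hε₁
    refine ⟨max B 2, fun Q hQ hQB q p hp => ?_⟩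
    have h2Q : 2 ∣ Q := hQB 2 Nat.prime_two (le_max_right _ _)
    obtain ⟨H₀, hH₀⟩ := hB (4 * Q) (by omega)
      (fun l hl hlB => (hQB l hl (hlB.trans (le_max_left _ _))).mul_left 4) (FM q p)
    refine ⟨H₀, fun H hH => ?_⟩
    have h1 := hH₀ H hH
    rw [card_Mon] at h1
    refine le_trans h1 ?_
    have h3 := card_transfer (2 * g + 2) H (fun b => SmoothB q (fun k => p k + Q * b k) ∧
            (∀ l : ℕ, l.Prime → GoodB q (fun k => p k + Q * b k) l ∨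
              NodeB q (fun k => p k + Q * b k) l) ∧
            BdG ht (κ₀ / 2 + ε) q (fun k => p k + Q * b k))
    rw [h3]
    apply nat_mono
    intro b _ hb
    have h4 := FM_add q p Q b
    obtain ⟨-, b1, b2, b3⟩ := hb
    rw [← h4] at b1 b2 b3
    refine ⟨smoothB_of _ _ b1, fun l hl => ?_, bdG_of _ _ _ _ b3⟩
    by_cases hlQ : l ∣ 4 * Q
    · left
      have hlQ' : l ∣ Q := by
        rcases hl.dvd_mul.1 hlQ with h5 | h5
        · have h6 : l ∣ 2 ^ 2 := by norm_num; exact h5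
          have h7 := hl.dvd_of_dvd_pow h6
          exact h7.trans h2Q
        · exact h5
      refine goodB_congr q p _ l (fun j => ?_) (hp l hl hlQ')
      have : (l : ℤ) ∣ (Q : ℤ) := by exact_mod_cast hlQ'
      simpa using this.mul_right (b (eMon (2 * g + 2) j))
    · have hl2 : l ≠ 2 := by
        rintro rfl
        exact hlQ (h2Q.mul_left 4)
      rcases b2 l hl hlQ with h5 | h5
      · exact Or.inl (goodB_of_goodAt _ _ _ h5)
      · exact Or.inr (nodeB_of_nodeAt _ _ _ hl hl2 h5)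

theorem hyp_gen_pos (hRES : S_RES) (hRAD : S_RAD2) (hNL : S_NL) (hDEN : S_DEN)
    (hCLS : ∀ g : ℕ, 1 ≤ g → ∀ l : ℕ, l.Prime → ∃ p : Fin (2 * g + 3) → ℤ, GoodB (oneB g) p l)
    (g : ℕ) (hg : 1 ≤ g) (ht : (Fin (2 * g + 3) → ℤ) → ℝ) (κ₀ C₀ : ℝ) (hκ : 0 ≤ κ₀)
    (hb : ∀ (F : Fin (2 * g + 3) → ℤ) (M : ℝ), 1 ≤ M → (∀ k, |(F k : ℝ)| ≤ M) →
      ht F ≤ κ₀ * Real.log M + C₀) (ε : ℝ) (hε : 0 < ε) :
    ∃ δ : ℝ, 0 < δ ∧ ∃ H₀ : ℕ, ∀ H : ℕ, H₀ ≤ H →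
      δ * (2 * (H : ℝ) + 1) ^ (2 * g + 3) ≤
        (Nat.card {p : Fin (2 * g + 3) → ℤ // (∀ k, |p k| ≤ H) ∧
          (SmoothB (oneB g) p ∧
            (∀ l : ℕ, l.Prime → GoodB (oneB g) p l ∨ NodeB (oneB g) p l) ∧
            BdG ht (κ₀ / 2 + ε) (oneB g) p)} : ℝ) := by
  classical
  obtain ⟨B, hB⟩ := (hyp_gen hRES hRAD hNL hDEN g hg ht κ₀ C₀ hκ hb ε hε).2 (1 / 2) (by norm_num)
  choose a ha using fun p : ℕ => fun hp : p.Prime => hCLS g hg p hp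
  obtain ⟨c, hc⟩ := crt (ι := Fin (2 * g + 3))
    (fun p m => if hp : p.Prime then a p hp m else 0)
    ((Finset.range (B + 1)).filter Nat.Prime) (fun p hp => (Finset.mem_filter.1 hp).2)
  have hQ0 : 0 < B.factorial := Nat.factorial_pos B
  have hgood : ∀ p : ℕ, p.Prime → p ∣ B.factorial → GoodB (oneB g) c p := by
    intro p hp hpQ
    have hpB : p ≤ B := (hp.dvd_factorial).1 hpQ
    have hmem : p ∈ (Finset.range (B + 1)).filter Nat.Prime := by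
      simp only [Finset.mem_filter, Finset.mem_range]
      exact ⟨by omega, hp⟩
    have h1 := hc p hmem
    simp only [hp, dif_pos] at h1
    exact goodB_congr (oneB g) (a p hp) c p h1 (ha p hp)
  obtain ⟨H₀, hH₀⟩ := hB B.factorial hQ0 (fun p hp hpB => (hp.dvd_factorial).2 hpB) (oneB g) c
    hgood
  have key := pos_of_class (fun p : Fin (2 * g + 3) → ℤ => SmoothB (oneB g) p ∧
            (∀ l : ℕ, l.Prime → GoodB (oneB g) p l ∨ NodeB (oneB g) p l) ∧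
            BdG ht (κ₀ / 2 + ε) (oneB g) p) B.factorial hQ0 c H₀ ?_
  · rw [Fintype.card_fin] at key
    exact key
  · intro H hH
    have := hH₀ H hH
    rw [Fintype.card_fin]
    norm_num at this ⊢
    exact this

end Pool.Agent.Run7.h802.FH
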