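import Pool.Agent.Run7.h802.FH.Iface

/-! Project FH, second part: radicals of size `H ^ (2 - δ)` instead of `H ^ (1 - δ)`, from the theorem
of helper742 (`Run7.h742.VI.main_slice`). So Frey's slope `g / 2 + ε` holds for almost all plane
curves, and `g / 4 + ε` for almost all hyperelliptic curves. -/

set_option autoImplicit false

namespace Pool.Agent.Run7.h802.FH

open MvPolynomial Pool.Agent.Run7.h802.HP

/-- NL. A polynomial which vanishes at all singular forms is not a power of a polynomial of degree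
one.
Proof: otherwise `ℓ` (as `h ≠ 0`, `c ≠ 0`; and `h(0) = 0` gives `k ≥ 1`) vanishes at all singular forms over
`ℚ`. For `m ∈ Mon n d` the form `X^m` (coefficient vector `Pi.single m 1`) has a singular zero: if
`m_i ≥ 2` take `x_i = 0` and all other coordinates `1`; if all `m_i ≤ 1` then (`d ≥ 3`) there are `i ≠ j`
with `m_i = m_j = 1` and a third one, take `x_i = x_j = 0` and all other coordinates `1`. So
`ℓ(0) = 0`, `ℓ(Pi.single m 1) = 0` for all `m`, and `ℓ = 0`. -/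
def S_NL : Prop := ∀ n d : ℕ, 3 ≤ d → ∀ h : MvPolynomial (Mon n d) ℤ, h ≠ 0 →
  (∀ (k : Type) [Field k] (a : Mon n d → k) (x : Fin (n + 2) → k), x ≠ 0 → Sing a x →
    aeval a h = 0) →
  ∀ (l : MvPolynomial (Mon n d) ℚ) (c : ℚ) (k : ℕ), l.totalDegree ≤ 1 →
    map (Int.castRingHom ℚ) h ≠ C c * l ^ k

/-- FAC. Factorization of a form over `ℚ`: its different irreducible factors other than `X 0` have
total weight `∑ min (deg, 2) ≥ 2`, or it is `c X_0^a L^k` with a linear form `L`.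
Proof: `MvPolynomial (Fin (N + 1)) ℚ` is factorial; the factors of a form are forms
(`Pool.Agent.R366.NF.homog_of_dvd` in `Pool/Agent/R366/NF/Elim.lean`). If there is an irreducible factor
of degree `≥ 2`, take `r = 1` (`X 0` has degree one); if there are two factors of degree one, not
associated to each other and to `X 0`, take `r = 2`; otherwise all irreducible factors are associated
to `X 0` or to one form `L`. -/
def S_FAC : Prop := ∀ (N : ℕ) (P : MvPolynomial (Fin (N + 1)) ℚ) (D : ℕ), P ≠ 0 →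
  P.IsHomogeneous D →
  (∃ (r : ℕ) (f : Fin r → MvPolynomial (Fin (N + 1)) ℚ) (k : Fin r → ℕ),
    (∀ j, (f j).IsHomogeneous (k j)) ∧ (∀ j, Irreducible (f j)) ∧
    (∀ i j, i ≠ j → ¬ Associated (f i) (f j)) ∧ (∀ j, ¬ Associated (f j) (X 0)) ∧
    2 ≤ ∑ j, min (k j) 2 ∧ ∏ j, f j ∣ P) ∨
  ∃ (L : MvPolynomial (Fin (N + 1)) ℚ) (c : ℚ) (a k : ℕ), L.IsHomogeneous 1 ∧
    P = C c * X 0 ^ a * L ^ k

/-- CLR. Clearing denominators. -/
def S_CLR : Prop := ∀ (N : ℕ) (P : MvPolynomial (Fin (N + 1)) ℤ) (r : ℕ)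
  (f : Fin r → MvPolynomial (Fin (N + 1)) ℚ) (k : Fin r → ℕ), (∀ j, (f j).IsHomogeneous (k j)) →
  (∀ j, f j ≠ 0) → ∏ j, f j ∣ map (Int.castRingHom ℚ) P →
  ∃ (F : Fin r → MvPolynomial (Fin (N + 1)) ℤ) (W : MvPolynomial (Fin (N + 1)) ℤ) (M : ℕ),
    M ≠ 0 ∧ (∀ j, (F j).IsHomogeneous (k j)) ∧
    (∀ j, Associated (map (Int.castRingHom ℚ) (F j)) (f j)) ∧ C (M : ℤ) * P = (∏ j, F j) * W

/-- HOM. Homogenization. -/
def S_HOM : Prop := ∀ (N : ℕ) (G : MvPolynomial (Fin N) ℤ),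
  ∃ (D : ℕ) (P : MvPolynomial (Fin (N + 1)) ℤ), P.IsHomogeneous D ∧
    ∀ (R : Type) [CommRing R] (b : Fin N → R),
      aeval (Fin.cons (α := fun _ => R) 1 b) P = aeval b G

/-- RAD2 (assembly of the pieces, helper802). -/
def S_RAD2 : Prop := ∀ (σ : Type) [Fintype σ] [DecidableEq σ] (h : MvPolynomial σ ℤ),
  (∀ (l : MvPolynomial σ ℚ) (c : ℚ) (k : ℕ), l.totalDegree ≤ 1 →
    map (Int.castRingHom ℚ) h ≠ C c * l ^ k) →
  ∀ δ : ℝ, 0 < δ → ∀ Q : ℕ, 0 < Q → ∀ c : σ → ℤ,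
  ∃ (C η : ℝ), 0 < η ∧ ∀ H : ℕ, 1 ≤ H →
    (Nat.card {b : σ → ℤ // (∀ i, |b i| ≤ H) ∧
      (rad (eval (fun i => c i + Q * b i) h) : ℝ) < (H : ℝ) ^ (2 - δ)} : ℝ) ≤
        C * (H : ℝ) ^ ((Fintype.card σ : ℝ) - η)

end Pool.Agent.Run7.h802.FH
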