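import Pool.Agent.Run7.h802.FH.Main
import Pool.Agent.Run7.h802.FH.Iface2

/-! Project FH: the main counting theorems, with half the slope (from `S_RAD2`). -/

set_option autoImplicit false

namespace Pool.Agent.Run7.h802.FH

open MvPolynomial Pool.Agent.Run7.h802.HP Pool.Agent.Run7.h796.HP

/-- The comparison of the height with the product of the bad primes. -/
theorem core2 {n d : ℕ} (h : MvPolynomial (Mon n d) ℤ) (M₀ : ℕ)
    (hres : ∀ p : ℕ, p.Prime → M₀ < p → ∀ a : Mon n d → ℤ, (p : ℤ) ∣ eval a h → ¬ GoodAt a p)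
    (κ₀ ε C₀ C₁ : ℝ) (hκ : 0 ≤ κ₀) (hε : 0 < ε) (hC₁ : 0 < C₁) :
    ∃ H₁ : ℕ, 2 ≤ H₁ ∧ ∀ H : ℕ, H₁ ≤ H → ∀ a : Mon n d → ℤ,
      ¬ ((rad (eval a h) : ℝ) < (H : ℝ) ^ (2 - ε / (κ₀ / 2 + ε))) →
      eval a h ≠ 0 ∧ ∀ W : ℕ, W ≠ 0 → (∀ p : ℕ, p.Prime → p ≠ 2 → ¬ GoodAt a p → p ∣ W) →
        κ₀ * Real.log (C₁ * H) + C₀ ≤ (κ₀ / 2 + ε) * Real.log W := by
  classical
  set δ : ℝ := ε / (κ₀ / 2 + ε) with hδ
  have hκε : 0 < κ₀ / 2 + ε := by linarith
  have hδ0 : 0 < δ := by positivity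
  have hδ1 : δ ≤ 1 := by
    rw [hδ, div_le_one (by positivity)]
    linarith
  set P₀ : ℕ := ∏ p ∈ (Finset.range (max M₀ 2 + 1)).filter Nat.Prime, p with hP₀
  have hP₀0 : P₀ ≠ 0 := by
    rw [hP₀]
    exact Finset.prod_ne_zero_iff.2 fun p hp => (Finset.mem_filter.1 hp).2.ne_zero
  have hP₀1 : (1 : ℝ) ≤ P₀ := by exact_mod_cast Nat.one_le_iff_ne_zero.2 hP₀0
  -- the threshold
  set K : ℝ := (κ₀ / 2 + ε) * Real.log P₀ + |C₀| + κ₀ * |Real.log C₁| with hK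
  obtain ⟨H₁, hH₁⟩ := exists_nat_gt (Real.exp (K / ε))
  refine ⟨max H₁ 2, le_max_right _ _, fun H hH a hr => ?_⟩
  have hH2 : 2 ≤ H := (le_max_right _ _).trans hH
  have hHr : (2 : ℝ) ≤ H := by exact_mod_cast hH2
  have hH0 : (0 : ℝ) < H := by linarith
  have hlogH : K / ε ≤ Real.log H := by
    rw [← Real.log_exp (K / ε)]
    apply Real.log_le_log (Real.exp_pos _)
    have : (H₁ : ℝ) ≤ H := by exact_mod_cast (le_max_left _ _).trans hH
    linarith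
  have hr' : (H : ℝ) ^ (2 - δ) ≤ rad (eval a h) := not_lt.1 hr
  have hgt1 : (1 : ℝ) < (H : ℝ) ^ (2 - δ) :=
    Real.one_lt_rpow (by linarith) (by linarith)
  have hne : eval a h ≠ 0 := by
    intro h0
    rw [h0] at hr'
    have : rad 0 = 1 := by simp [rad]
    rw [this] at hr'
    push_cast at hr'
    linarith
  refine ⟨hne, fun W hW hWp => ?_⟩
  have hdvd : rad (eval a h) ∣ W * P₀ := by
    unfold rad
    apply Finset.prod_primes_dvd
    · intro p hp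
      exact (Nat.prime_of_mem_primeFactors hp).prime
    · intro p hp
      have hpp := Nat.prime_of_mem_primeFactors hp
      by_cases hpM : p ≤ max M₀ 2
      · apply Dvd.dvd.mul_left
        apply Finset.dvd_prod_of_mem (fun p => p)
        simp only [Finset.mem_filter, Finset.mem_range]
        exact ⟨by omega, hpp⟩
      · push Not at hpM
        apply Dvd.dvd.mul_right
        have hM : M₀ < p := (le_max_left _ _).trans_lt hpM
        have h2 : p ≠ 2 := by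
          have := (le_max_right M₀ 2).trans_lt hpM
          omega
        refine hWp p hpp h2 (hres p hpp hM a ?_)
        have := Nat.dvd_of_mem_primeFactors hp
        exact Int.natCast_dvd.2 this
  have hle : (rad (eval a h) : ℝ) ≤ W * P₀ := by
    exact_mod_cast Nat.le_of_dvd (Nat.pos_of_ne_zero (mul_ne_zero hW hP₀0)) hdvd
  have hW0 : (0 : ℝ) < W := by exact_mod_cast Nat.pos_of_ne_zero hW
  have hlog : (2 - δ) * Real.log H ≤ Real.log W + Real.log P₀ := by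
    rw [← Real.log_mul hW0.ne' (by linarith), ← Real.log_rpow hH0]
    exact Real.log_le_log (by positivity) (hr'.trans hle)
  have h1 : Real.log (C₁ * H) = Real.log C₁ + Real.log H := Real.log_mul hC₁.ne' hH0.ne'
  have h2 : κ₀ * Real.log C₁ ≤ κ₀ * |Real.log C₁| :=
    mul_le_mul_of_nonneg_left (le_abs_self _) hκ
  have h3 : C₀ ≤ |C₀| := le_abs_self _
  have h4 : K ≤ ε * Real.log H := by
    have h5 := mul_le_mul_of_nonneg_left hlogH (show (0 : ℝ) ≤ ε by positivity)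
    have h6 : ε * (K / ε) = K := by field_simp
    rwa [h6] at h5
  have h7 : (κ₀ / 2 + ε) * (2 - δ) = κ₀ + ε := by
    have h6 : (κ₀ / 2 + ε) * δ = ε := by
      rw [hδ]
      exact mul_div_cancel₀ ε hκε.ne'
    linear_combination - h6
  have h8 : (κ₀ + ε) * Real.log H ≤ (κ₀ / 2 + ε) * Real.log W + (κ₀ / 2 + ε) * Real.log P₀ := by
    rw [← h7, mul_assoc, ← mul_add]
    exact mul_le_mul_of_nonneg_left hlog hκε.le
  rw [h1]
  have h9 : (κ₀ + ε) * Real.log H = κ₀ * Real.log H + ε * Real.log H := by ring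
  rw [h9] at h8
  have h10 : κ₀ * (Real.log C₁ + Real.log H) = κ₀ * Real.log C₁ + κ₀ * Real.log H := by ring
  rw [h10]
  rw [hK] at h4
  linarith

section

variable {n d : ℕ} (h : MvPolynomial (Mon n d) ℤ) (M₀ : ℕ)
  (hnl : ∀ (l : MvPolynomial (Mon n d) ℚ) (c : ℚ) (k : ℕ), l.totalDegree ≤ 1 →
    map (Int.castRingHom ℚ) h ≠ C c * l ^ k)
  (hres : ∀ p : ℕ, p.Prime → M₀ < p → ∀ a : Mon n d → ℤ, (p : ℤ) ∣ eval a h → ¬ GoodAt a p)
  (hz : ∀ (k : Type) [Field k] (a : Mon n d → k) (x : Fin (n + 2) → k), x ≠ 0 → Sing a x →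
      aeval a h = 0)
  (ht : (Mon n d → ℤ) → ℝ) (κ₀ C₀ : ℝ) (hκ : 0 ≤ κ₀)
  (hb : ∀ (a : Mon n d → ℤ) (M : ℝ), 1 ≤ M → GenSmooth a → (∀ m, |(a m : ℝ)| ≤ M) →
    ht a ≤ κ₀ * Real.log M + C₀)

include hres hz hκ hb in
/-- Large radical implies the inequality. -/
theorem bd_of_rad2 (Q : ℕ) (c : Mon n d → ℤ) (ε : ℝ) (hε : 0 < ε) :
    ∃ H₁ : ℕ, 2 ≤ H₁ ∧ ∀ H : ℕ, H₁ ≤ H → ∀ b : Mon n d → ℤ, (∀ m, |b m| ≤ H) →
      GenSmooth (fun m => c m + Q * b m) →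
      ¬ ((rad (eval (fun m => c m + Q * b m) h) : ℝ) < (H : ℝ) ^ (2 - ε / (κ₀ / 2 + ε))) →
      Bd ht (κ₀ / 2 + ε) (fun m => c m + Q * b m) := by
  obtain ⟨C₁, hC₁, hbox⟩ := box_bound Q c
  obtain ⟨H₁, hH₁, hcore⟩ := core2 h M₀ hres κ₀ ε C₀ C₁ hκ hε (by linarith)
  refine ⟨H₁, hH₁, fun H hH b hbH hsm hr => ?_⟩
  obtain ⟨h1, h2⟩ := hcore H hH (fun m => c m + Q * b m) hr
  refine ⟨bad_finite h hz _ h1, ?_⟩
  intro W hW hWp
  refine le_trans ?_ (h2 W hW hWp)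
  have hH1 : 1 ≤ H := by omega
  have hHr : (1 : ℝ) ≤ H := by exact_mod_cast hH1
  refine hb _ (C₁ * H) ?_ hsm (hbox H hH1 b hbH)
  nlinarith

include hnl hres hz hκ hb in
/-- The power saving. -/
theorem saving2 (hR : S_RAD2) (Q : ℕ) (hQ : 0 < Q) (c : Mon n d → ℤ) (ε : ℝ) (hε : 0 < ε) :
    ∃ C η : ℝ, 0 < η ∧ ∀ H : ℕ, 1 ≤ H →
      (Nat.card {b : Mon n d → ℤ // (∀ m, |b m| ≤ H) ∧
        (GenSmooth (fun m => c m + Q * b m) ∧ ¬ Bd ht (κ₀ / 2 + ε) (fun m => c m + Q * b m))} : ℝ) ≤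
        C * (H : ℝ) ^ ((Fintype.card (Mon n d) : ℝ) - η) := by
  classical
  have hconst : ∀ c : ℤ, h ≠ C c := by
    intro c' h0
    apply hnl 1 (c' : ℚ) 0 (by simp)
    rw [h0]
    simp
  set δ : ℝ := ε / (κ₀ / 2 + ε) with hδ
  have hδ0 : 0 < δ := by
    have : 0 < κ₀ / 2 + ε := by linarith
    positivity
  obtain ⟨C, η, hη, hrad⟩ := hR (Mon n d) h hnl δ hδ0 Q hQ c
  obtain ⟨H₁, hH₁, hbd⟩ := bd_of_rad2 h M₀ hres hz ht κ₀ C₀ hκ hb Q c ε hε
  have hN := card_pos_of_ne h hconst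
  have hNr : (1 : ℝ) ≤ Fintype.card (Mon n d) := by exact_mod_cast hN
  refine ⟨|C| + (2 * (H₁ : ℝ) + 1) ^ Fintype.card (Mon n d), min η 1, by positivity,
    fun H hH => ?_⟩
  have hHr : (1 : ℝ) ≤ H := by exact_mod_cast hH
  have hpow : (1 : ℝ) ≤ (H : ℝ) ^ ((Fintype.card (Mon n d) : ℝ) - min η 1) := by
    apply Real.one_le_rpow hHr
    have := min_le_right η 1
    linarith
  have hpow2 : (H : ℝ) ^ ((Fintype.card (Mon n d) : ℝ) - η) ≤
      (H : ℝ) ^ ((Fintype.card (Mon n d) : ℝ) - min η 1) := by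
    apply Real.rpow_le_rpow_of_exponent_le hHr
    have := min_le_left η 1
    linarith
  by_cases hHH : H₁ ≤ H
  · have h1 := nat_mono H (fun b : Mon n d → ℤ => GenSmooth (fun m => c m + Q * b m) ∧
        ¬ Bd ht (κ₀ / 2 + ε) (fun m => c m + Q * b m))
        (fun b => (rad (eval (fun i => c i + Q * b i) h) : ℝ) < (H : ℝ) ^ (2 - δ))
        (fun b hbm hP => by
          by_contra hcon
          exact hP.2 (hbd H hHH b hbm hP.1 hcon))
    have h3 := h1.trans (hrad H hH)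
    refine h3.trans ?_
    have h4 : C * (H : ℝ) ^ ((Fintype.card (Mon n d) : ℝ) - η) ≤
        |C| * (H : ℝ) ^ ((Fintype.card (Mon n d) : ℝ) - min η 1) := by
      refine (mul_le_mul_of_nonneg_right (le_abs_self C) (by positivity)).trans ?_
      exact mul_le_mul_of_nonneg_left hpow2 (abs_nonneg _)
    refine h4.trans (mul_le_mul_of_nonneg_right ?_ (by positivity))
    have : (0 : ℝ) ≤ (2 * (H₁ : ℝ) + 1) ^ Fintype.card (Mon n d) := by positivity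
    linarith
  · push Not at hHH
    have h1 := nat_box H (fun b : Mon n d → ℤ => GenSmooth (fun m => c m + Q * b m) ∧
        ¬ Bd ht (κ₀ / 2 + ε) (fun m => c m + Q * b m))
    have h2 : (2 * (H : ℝ) + 1) ^ Fintype.card (Mon n d) ≤
        (2 * (H₁ : ℝ) + 1) ^ Fintype.card (Mon n d) := by
      apply pow_le_pow_left₀ (by positivity)
      have : (H : ℝ) ≤ H₁ := by exact_mod_cast hHH.le
      linarith
    refine (h1.trans h2).trans ?_
    have h3 : (0 : ℝ) ≤ |C| := abs_nonneg _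
    have h4 : (0 : ℝ) ≤ (2 * (H₁ : ℝ) + 1) ^ Fintype.card (Mon n d) := by positivity
    nlinarith

include hnl hres hz hκ hb in
/-- The classes. -/
theorem classes2 (hR : S_RAD2) (hD : S_DEN) (hh : h ≠ 0) (g : MvPolynomial (Mon n d) ℤ)
    (r : Fin (n + 2) → MvPolynomial (Mon n d) ℤ)
    (hrel : IsRelPrime (map (Int.castRingHom ℚ) h) (map (Int.castRingHom ℚ) g))
    (p1 : ∀ (k : Type) [Field k] (a : Mon n d → k) (x : Fin (n + 2) → k), x ≠ 0 → Sing a x →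
      aeval a h = 0 ∧ (aeval a g ≠ 0 → aeval a (r 0) ≠ 0 ∧ x 0 ≠ 0 ∧
        (∀ i, x i * aeval a (r 0) = x 0 * aeval a (r i)) ∧ (x 0 = 1 → hess a x ≠ 0)))
    (p2 : ∀ (R : Type) [CommRing R] (a : Mon n d → R) (x : Fin (n + 2) → R), x 0 = 1 →
      aeval a h ∈ Ideal.span (insert (eval x (form a))
        (Set.range fun i : Fin (n + 1) => eval x (pderiv i.succ (form a)))))
    (ε' : ℝ) (hε' : 0 < ε') (ε : ℝ) (hε : 0 < ε) :
    ∃ B : ℕ, ∀ Q : ℕ, 0 < Q → (∀ p : ℕ, p.Prime → p ≤ B → p ∣ Q) →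
    ∀ c : Mon n d → ℤ, ∃ H₀ : ℕ, ∀ H : ℕ, H₀ ≤ H →
      (1 - ε) * (2 * (H : ℝ) + 1) ^ Fintype.card (Mon n d) ≤
        (Nat.card {b : Mon n d → ℤ // (∀ m, |b m| ≤ H) ∧
          (eval (fun m => c m + Q * b m) h ≠ 0 ∧ GenSmooth (fun m => c m + Q * b m) ∧
          (∀ p : ℕ, p.Prime → ¬ p ∣ Q → GoodAt (fun m => c m + Q * b m) p ∨
            NodeAt (fun m => c m + Q * b m) p) ∧
          Bd ht (κ₀ / 2 + ε') (fun m => c m + Q * b m))} : ℝ) := by
  classical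
  obtain ⟨B, hB⟩ := hD n d h g r hh hrel p1 p2 (ε / 2) (by positivity)
  refine ⟨B, fun Q hQ hQB c => ?_⟩
  obtain ⟨H₂, hH₂⟩ := hB Q hQ hQB c
  obtain ⟨C, η, hη, hsav⟩ := saving2 h M₀ hnl hres hz ht κ₀ C₀ hκ hb hR Q hQ c ε' hε'
  -- the error term is small
  obtain ⟨H₃, hH₃⟩ : ∃ H₃ : ℕ, ∀ H : ℕ, H₃ ≤ H → |C| * (H : ℝ) ^ (-η) ≤ ε / 2 := by
    have ht1 : Filter.Tendsto (fun H : ℕ => |C| * (H : ℝ) ^ (-η)) Filter.atTop
        (nhds (|C| * 0)) :=
      ((tendsto_rpow_neg_atTop hη).comp tendsto_natCast_atTop_atTop).const_mul _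
    rw [mul_zero] at ht1
    have := ht1.eventually (ge_mem_nhds (show (0 : ℝ) < ε / 2 by positivity))
    obtain ⟨H₃, h3⟩ := Filter.eventually_atTop.1 this
    exact ⟨H₃, h3⟩
  refine ⟨max (max H₂ H₃) 1, fun H hH => ?_⟩
  have hH1 : 1 ≤ H := (le_max_right _ _).trans hH
  have hHr : (1 : ℝ) ≤ H := by exact_mod_cast hH1
  have hH0 : (0 : ℝ) < H := by linarith
  have e1 := hH₂ H ((le_max_left _ _).trans ((le_max_left _ _).trans hH))
  have e2 := hsav H hH1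
  have e3 := hH₃ H ((le_max_right _ _).trans ((le_max_left _ _).trans hH))
  have e4 : C * (H : ℝ) ^ ((Fintype.card (Mon n d) : ℝ) - η) ≤
      ε / 2 * (2 * (H : ℝ) + 1) ^ Fintype.card (Mon n d) := by
    have h1 : (H : ℝ) ^ ((Fintype.card (Mon n d) : ℝ) - η) =
        (H : ℝ) ^ Fintype.card (Mon n d) * (H : ℝ) ^ (-η) := by
      rw [sub_eq_add_neg, Real.rpow_add hH0, Real.rpow_natCast]
    rw [h1]
    have h2 : (H : ℝ) ^ Fintype.card (Mon n d) ≤ (2 * (H : ℝ) + 1) ^ Fintype.card (Mon n d) :=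
      pow_le_pow_left₀ hH0.le (by linarith) _
    calc C * ((H : ℝ) ^ Fintype.card (Mon n d) * (H : ℝ) ^ (-η))
        ≤ |C| * ((H : ℝ) ^ Fintype.card (Mon n d) * (H : ℝ) ^ (-η)) :=
          mul_le_mul_of_nonneg_right (le_abs_self C) (by positivity)
      _ = (H : ℝ) ^ Fintype.card (Mon n d) * (|C| * (H : ℝ) ^ (-η)) := by ring
      _ ≤ (2 * (H : ℝ) + 1) ^ Fintype.card (Mon n d) * (ε / 2) :=
          mul_le_mul h2 e3 (by positivity) (by positivity)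
      _ = ε / 2 * (2 * (H : ℝ) + 1) ^ Fintype.card (Mon n d) := by ring
  have hcard' := nat_union H (fun b : Mon n d → ℤ => eval (fun m => c m + Q * b m) h ≠ 0 ∧
        GenSmooth (fun m => c m + Q * b m) ∧ ∀ p : ℕ, p.Prime → ¬ p ∣ Q →
          GoodAt (fun m => c m + Q * b m) p ∨ NodeAt (fun m => c m + Q * b m) p)
      (fun b => eval (fun m => c m + Q * b m) h ≠ 0 ∧
        GenSmooth (fun m => c m + Q * b m) ∧
          (∀ p : ℕ, p.Prime → ¬ p ∣ Q → GoodAt (fun m => c m + Q * b m) p ∨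
            NodeAt (fun m => c m + Q * b m) p) ∧ Bd ht (κ₀ / 2 + ε') (fun m => c m + Q * b m))
      (fun b => GenSmooth (fun m => c m + Q * b m) ∧
        ¬ Bd ht (κ₀ / 2 + ε') (fun m => c m + Q * b m)) (fun b _ hP => by
          by_cases hq : Bd ht (κ₀ / 2 + ε') (fun m => c m + Q * b m)
          · exact Or.inl ⟨hP.1, hP.2.1, hP.2.2, hq⟩
          · exact Or.inr ⟨hP.2.1, hq⟩)
  linarith

end

end Pool.Agent.Run7.h802.FH
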