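import Pool.Agent.Run7.h802.FH.HypForm

/-! Project FH: reductions of hyperelliptic curves. -/

set_option autoImplicit false

namespace Pool.Agent.Run7.h802.FH

open MvPolynomial MeasureTheory Pool.Agent.Run7.h802.HP Pool.Agent.Run7.h796.HP

/-- Good reduction at `l` of the curve `y² + q y = p`. -/
def GoodB {g : ℕ} (q : Fin (g + 2) → ℤ) (p : Fin (2 * g + 3) → ℤ) (l : ℕ) : Prop :=
  ∀ (k : Type) [Field k] [CharP k l] (x : Fin 2 → k) (y : k), x ≠ 0 →
    ¬ SingB (fun i => ((q i : ℤ) : k)) (fun j => ((p j : ℤ) : k)) x y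

/-- Smooth over the rationals. -/
def SmoothB {g : ℕ} (q : Fin (g + 2) → ℤ) (p : Fin (2 * g + 3) → ℤ) : Prop :=
  ∀ (k : Type) [Field k] [CharZero k] (x : Fin 2 → k) (y : k), x ≠ 0 →
    ¬ SingB (fun i => ((q i : ℤ) : k)) (fun j => ((p j : ℤ) : k)) x y

/-- One node. -/
def NodeB {g : ℕ} (q : Fin (g + 2) → ℤ) (p : Fin (2 * g + 3) → ℤ) (l : ℕ) : Prop :=
  ∃ (x : Fin 2 → ℤ) (y : ℤ), x 0 = 1 ∧
    (l : ℤ) ∣ y ^ 2 + eval x (bf q) * y - eval x (bf p) ∧ (l : ℤ) ∣ 2 * y + eval x (bf q) ∧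
    (l : ℤ) ∣ eval x (pderiv 1 (bf q)) * y - eval x (pderiv 1 (bf p)) ∧
    ¬ (l : ℤ) ∣ 2 * (eval x (pderiv 1 (pderiv 1 (bf q))) * y -
      eval x (pderiv 1 (pderiv 1 (bf p)))) - eval x (pderiv 1 (bf q)) ^ 2 ∧
    ∀ (k : Type) [Field k] [CharP k l] (x' : Fin 2 → k) (y' : k), x' ≠ 0 →
      SingB (fun i => ((q i : ℤ) : k)) (fun j => ((p j : ℤ) : k)) x' y' →
        x' 1 = x' 0 * ((x 1 : ℤ) : k) ∧ y' = x' 0 ^ (g + 1) * ((y : ℤ) : k)

/-- The vector of the coefficients of `F`, indexed by monomials. -/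
def FM {g : ℕ} (q : Fin (g + 2) → ℤ) (p : Fin (2 * g + 3) → ℤ) (m : Mon 0 (2 * g + 2)) : ℤ :=
  Fv q p ((eMon (2 * g + 2)).symm m)

theorem Fv_cast {k : Type} [CommRing k] {g : ℕ} (q : Fin (g + 2) → ℤ) (p : Fin (2 * g + 3) → ℤ)
    (j : Fin (2 * g + 3)) : ((Fv q p j : ℤ) : k) =
      Fv (fun i => ((q i : ℤ) : k)) (fun j => ((p j : ℤ) : k)) j := by
  unfold Fv sqv
  push_cast
  rfl

theorem FM_cast {k : Type} [CommRing k] {g : ℕ} (q : Fin (g + 2) → ℤ)
    (p : Fin (2 * g + 3) → ℤ) : (fun m => ((FM q p m : ℤ) : k)) =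
      fun m => Fv (fun i => ((q i : ℤ) : k)) (fun j => ((p j : ℤ) : k))
        ((eMon (2 * g + 2)).symm m) := by
  funext m
  exact Fv_cast q p _

theorem exists_y {k : Type} [Field k] (h2 : (2 : k) ≠ 0) (c : k) : ∃ y : k, 2 * y + c = 0 :=
  ⟨-c / 2, by field_simp; ring⟩

theorem goodB_of_goodAt {g : ℕ} (q : Fin (g + 2) → ℤ) (p : Fin (2 * g + 3) → ℤ) (l : ℕ)
    (h : GoodAt (FM q p) l) : GoodB q p l := by
  intro k _ _ x y hx hs
  apply hx
  apply h k x
  rw [FM_cast]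
  exact sing_of_singB _ _ x y hs

theorem two_ne {k : Type} [Field k] (l : ℕ) [CharP k l] (hl : l.Prime) (h2 : l ≠ 2) :
    (2 : k) ≠ 0 := by
  intro h
  have h1 : ((2 : ℕ) : k) = 0 := by exact_mod_cast h
  rw [CharP.cast_eq_zero_iff k l] at h1
  exact h2 ((Nat.prime_dvd_prime_iff_eq hl Nat.prime_two).1 h1)

theorem goodAt_of_goodB {g : ℕ} (q : Fin (g + 2) → ℤ) (p : Fin (2 * g + 3) → ℤ) (l : ℕ)
    (hl : l.Prime) (hl2 : l ≠ 2) (h : GoodB q p l) : GoodAt (FM q p) l := by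
  intro k _ _ x hs
  by_contra hx
  rw [FM_cast] at hs
  have h2 := two_ne (k := k) l hl hl2
  obtain ⟨y, hy⟩ := exists_y h2 (eval x (bf (D := g + 1) fun i => ((q i : ℤ) : k)))
  exact h k x y hx (singB_of_sing h2 _ _ x y hy hs)

theorem smoothB_of {g : ℕ} (q : Fin (g + 2) → ℤ) (p : Fin (2 * g + 3) → ℤ)
    (h : GenSmooth (FM q p)) : SmoothB q p := by
  intro k _ _ x y hx hs
  apply hx
  apply h k x
  rw [FM_cast]
  exact sing_of_singB _ _ x y hs

theorem genSmooth_of {g : ℕ} (q : Fin (g + 2) → ℤ) (p : Fin (2 * g + 3) → ℤ)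
    (h : SmoothB q p) : GenSmooth (FM q p) := by
  intro k _ _ x hs
  by_contra hx
  rw [FM_cast] at hs
  obtain ⟨y, hy⟩ := exists_y (two_ne_zero : (2 : k) ≠ 0)
    (eval x (bf (D := g + 1) fun i => ((q i : ℤ) : k)))
  exact h k x y hx (singB_of_sing two_ne_zero _ _ x y hy hs)

theorem eval_bf {R : Type} [CommRing R] {D : ℕ} (a : Fin (D + 1) → R) (x : Fin 2 → R) :
    eval x (bf a) = ∑ k : Fin (D + 1), a k * x 1 ^ (k : ℕ) * x 0 ^ (D - (k : ℕ)) := by
  unfold bf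
  rw [map_sum]
  refine Finset.sum_congr rfl fun k _ => ?_
  simp only [map_mul, map_pow, eval_C, eval_X]
  ring

theorem eval_pderiv_one {R : Type} [CommRing R] {D : ℕ} (a : Fin (D + 1) → R) (x : Fin 2 → R) :
    eval x (pderiv 1 (bf a)) =
      ∑ k : Fin (D + 1), ((k : ℕ) : R) * a k * x 1 ^ ((k : ℕ) - 1) * x 0 ^ (D - (k : ℕ)) := by
  unfold bf
  rw [map_sum, map_sum]
  refine Finset.sum_congr rfl fun k _ => ?_
  rw [pderiv_C_mul, Derivation.leibniz, pderiv_pow, pderiv_pow, pderiv_X_self,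
    pderiv_X_of_ne (show (0 : Fin 2) ≠ 1 by decide)]
  simp only [smul_eq_mul, map_mul, map_add, map_pow, eval_C, eval_X, map_natCast, map_one,
    map_zero]
  ring

theorem eval_pderiv_zero {R : Type} [CommRing R] {D : ℕ} (a : Fin (D + 1) → R) (x : Fin 2 → R) :
    eval x (pderiv 0 (bf a)) =
      ∑ k : Fin (D + 1), ((D - (k : ℕ) : ℕ) : R) * a k * x 1 ^ (k : ℕ) *
        x 0 ^ (D - (k : ℕ) - 1) := by
  unfold bf
  rw [map_sum, map_sum]
  refine Finset.sum_congr rfl fun k _ => ?_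
  rw [pderiv_C_mul, Derivation.leibniz, pderiv_pow, pderiv_pow, pderiv_X_self,
    pderiv_X_of_ne (show (1 : Fin 2) ≠ 0 by decide)]
  simp only [smul_eq_mul, map_mul, map_add, map_pow, eval_C, eval_X, map_natCast, map_one,
    map_zero]
  ring

theorem goodB_of_goodC {g : ℕ} (q : Fin (g + 2) → ℤ) (p : Fin (2 * g + 3) → ℤ) (l : ℕ)
    (h : GoodC q p l) : GoodB q p l := by
  intro k _ _ x y hx hs
  refine h k (x 0) (x 1) y ?_ ?_
  · rintro ⟨h0, h1⟩
    apply hx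
    funext i
    fin_cases i
    · exact h0
    · exact h1
  · obtain ⟨h1, h2, h3⟩ := hs
    have h30 := h3 0
    have h31 := h3 1
    rw [eval_bf (D := g + 1), eval_bf (D := 2 * g + 2)] at h1
    rw [eval_bf (D := g + 1)] at h2
    rw [eval_pderiv_zero (D := g + 1), eval_pderiv_zero (D := 2 * g + 2)] at h30
    rw [eval_pderiv_one (D := g + 1), eval_pderiv_one (D := 2 * g + 2)] at h31
    exact ⟨h1, h2, h31, h30⟩

theorem goodB_congr {g : ℕ} (q : Fin (g + 2) → ℤ) (p p' : Fin (2 * g + 3) → ℤ) (l : ℕ)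
    (h : ∀ j, (l : ℤ) ∣ p' j - p j) (hg : GoodB q p l) : GoodB q p' l := by
  intro k _ _ x y hx hs
  apply hg k x y hx
  have e : (fun j => ((p j : ℤ) : k)) = fun j => ((p' j : ℤ) : k) := by
    funext m
    have h1 : (((p' m - p m : ℤ)) : k) = 0 := (CharP.intCast_eq_zero_iff k l _).2 (h m)
    push_cast at h1
    exact (sub_eq_zero.1 h1).symm
  rw [e]
  exact hs

theorem bf_homog {R : Type} [CommRing R] {D : ℕ} (a : Fin (D + 1) → R) (x : Fin 2 → R) (t u : R)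
    (hx0 : x 0 = t) (hx1 : x 1 = t * u) (z : Fin 2 → R) (hz0 : z 0 = 1) (hz1 : z 1 = u) :
    eval x (bf a) = t ^ D * eval z (bf a) := by
  rw [eval_bf, eval_bf, Finset.mul_sum]
  refine Finset.sum_congr rfl fun k _ => ?_
  rw [hx0, hx1, hz0, hz1, one_pow, mul_pow]
  have : t ^ D = t ^ (k : ℕ) * t ^ (D - (k : ℕ)) := by
    rw [← pow_add]
    congr 1
    have := k.2
    omega
  rw [this]
  ring

theorem eval_cast {k : Type} [CommRing k] {D : ℕ} (a : Fin (D + 1) → ℤ) (x : Fin 2 → ℤ) :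
    ((eval x (bf a) : ℤ) : k) =
      eval (fun i => ((x i : ℤ) : k)) (bf fun j => ((a j : ℤ) : k)) := by
  rw [eval_bf, eval_bf]
  push_cast
  rfl

theorem nodeB_of_nodeAt {g : ℕ} (q : Fin (g + 2) → ℤ) (p : Fin (2 * g + 3) → ℤ) (l : ℕ)
    (hl : l.Prime) (hl2 : l ≠ 2) (h : NodeAt (FM q p) l) : NodeB q p l := by
  obtain ⟨x, e, he, hx0, h1, -, h3, h4, h5⟩ := h
  have hlp : Prime (l : ℤ) := Nat.prime_iff_prime_int.1 hl
  have hl2' : ¬ (l : ℤ) ∣ 2 := by
    intro hd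
    have : l ∣ 2 := by exact_mod_cast hd
    exact hl2 ((Nat.prime_dvd_prime_iff_eq hl Nat.prime_two).1 this)
  have hl4 : ∀ z : ℤ, (l : ℤ) ∣ 4 * z → (l : ℤ) ∣ z := by
    intro z hz
    have h4 : (4 : ℤ) = 2 * 2 := by norm_num
    rw [h4, mul_assoc] at hz
    rcases hlp.dvd_or_dvd hz with hz | hz
    · exact absurd hz hl2'
    · rcases hlp.dvd_or_dvd hz with hz | hz
      · exact absurd hz hl2'
      · exact hz
  -- the point
  obtain ⟨y, hy⟩ : ∃ y : ℤ, (l : ℤ) ∣ 2 * y + eval x (bf (D := g + 1) q) := by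
    have hodd : l % 2 = 1 := (hl.eq_two_or_odd).resolve_left hl2
    refine ⟨((l / 2 : ℕ) : ℤ) * eval x (bf (D := g + 1) q), ?_⟩
    have h6 : (2 : ℤ) * ((l / 2 : ℕ) : ℤ) + 1 = l := by
      have : 2 * (l / 2) + 1 = l := by omega
      exact_mod_cast this
    refine ⟨eval x (bf (D := g + 1) q), ?_⟩
    rw [← h6]
    ring
  have hform : form (n := 0) (d := 2 * g + 2) (FM q p) = bf (D := 2 * g + 2) (Fv q p) :=
    form_eq (Fv q p)
  have hF : (l : ℤ) ∣ eval x (bf (D := g + 1) q) ^ 2 + 4 * eval x (bf (D := 2 * g + 2) p) := by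
    have h7 : (l : ℤ) ∣ eval x (form (n := 0) (d := 2 * g + 2) (FM q p)) :=
      (dvd_pow_self _ (by omega)).trans h1
    rw [hform, bf_Fv] at h7
    simpa only [map_add, map_pow, map_mul, map_ofNat] using h7
  have hF1 : (l : ℤ) ∣ 2 * eval x (bf (D := g + 1) q) * eval x (pderiv 1 (bf (D := g + 1) q)) +
      4 * eval x (pderiv 1 (bf (D := 2 * g + 2) p)) := by
    have h7 := (dvd_pow_self (l : ℤ) (show e + 1 ≠ 0 by omega)).trans (h3 0)
    have h8 : pderiv (Fin.succ (0 : Fin (0 + 1))) (form (n := 0) (d := 2 * g + 2) (FM q p)) =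
        2 * bf (D := g + 1) q * pderiv 1 (bf (D := g + 1) q) +
        4 * pderiv 1 (bf (D := 2 * g + 2) p) := by
      rw [hform]
      exact pderiv_Fv q p 1
    rw [h8] at h7
    simpa only [map_add, map_pow, map_mul, map_ofNat] using h7
  have hF2 : ¬ (l : ℤ) ∣ 2 * eval x (pderiv 1 (bf (D := g + 1) q)) ^ 2 +
      2 * eval x (bf (D := g + 1) q) * eval x (pderiv 1 (pderiv 1 (bf (D := g + 1) q))) +
      4 * eval x (pderiv 1 (pderiv 1 (bf (D := 2 * g + 2) p))) := by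
    intro hd
    apply h4
    have h8 : hess (n := 0) (d := 2 * g + 2) (FM q p) x =
        2 * eval x (pderiv 1 (bf (D := g + 1) q)) ^ 2 +
      2 * eval x (bf (D := g + 1) q) * eval x (pderiv 1 (pderiv 1 (bf (D := g + 1) q))) +
      4 * eval x (pderiv 1 (pderiv 1 (bf (D := 2 * g + 2) p))) := by
      unfold hess
      rw [Matrix.det_fin_one]
      simp only [Matrix.of_apply]
      have h9 : pderiv (Fin.succ (0 : Fin (0 + 1))) (pderiv (Fin.succ (0 : Fin (0 + 1)))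
          (form (n := 0) (d := 2 * g + 2) (FM q p))) =
          pderiv 1 (2 * bf (D := g + 1) q * pderiv 1 (bf (D := g + 1) q) +
          4 * pderiv 1 (bf (D := 2 * g + 2) p)) := by
        rw [hform]
        exact congrArg (pderiv 1) (pderiv_Fv q p 1)
      rw [h9]
      have c4 : (C (4 : ℤ) : MvPolynomial (Fin 2) ℤ) = 4 := map_ofNat C 4
      have c2 : (C (2 : ℤ) : MvPolynomial (Fin 2) ℤ) = 2 := map_ofNat C 2
      rw [map_add, ← c4, ← c2, pderiv_C_mul, mul_assoc, pderiv_C_mul, Derivation.leibniz]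
      simp only [smul_eq_mul, map_mul, map_add, eval_C]
      ring
    rw [h8]
    exact hd
  refine ⟨x, y, hx0, ?_, hy, ?_, ?_, ?_⟩
  · apply hl4
    have h6 : 4 * (y ^ 2 + eval x (bf (D := g + 1) q) * y - eval x (bf (D := 2 * g + 2) p)) =
        (2 * y + eval x (bf (D := g + 1) q)) * (2 * y + eval x (bf (D := g + 1) q)) -
        (eval x (bf (D := g + 1) q) ^ 2 + 4 * eval x (bf (D := 2 * g + 2) p)) := by ring
    rw [h6]
    exact dvd_sub (hy.mul_right _) hF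
  · apply hl4
    have h6 : 4 * (eval x (pderiv 1 (bf (D := g + 1) q)) * y -
        eval x (pderiv 1 (bf (D := 2 * g + 2) p))) =
        (2 * y + eval x (bf (D := g + 1) q)) * (2 * eval x (pderiv 1 (bf (D := g + 1) q))) -
        (2 * eval x (bf (D := g + 1) q) * eval x (pderiv 1 (bf (D := g + 1) q)) +
      4 * eval x (pderiv 1 (bf (D := 2 * g + 2) p))) := by ring
    rw [h6]
    exact dvd_sub (hy.mul_right _) hF1
  · intro hd
    apply hF2
    have h6 : 2 * eval x (pderiv 1 (bf (D := g + 1) q)) ^ 2 +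
      2 * eval x (bf (D := g + 1) q) * eval x (pderiv 1 (pderiv 1 (bf (D := g + 1) q))) +
      4 * eval x (pderiv 1 (pderiv 1 (bf (D := 2 * g + 2) p))) =
      (2 * y + eval x (bf (D := g + 1) q)) *
        (2 * eval x (pderiv 1 (pderiv 1 (bf (D := g + 1) q)))) -
      (2 * (eval x (pderiv 1 (pderiv 1 (bf (D := g + 1) q))) * y -
        eval x (pderiv 1 (pderiv 1 (bf (D := 2 * g + 2) p)))) -
        eval x (pderiv 1 (bf (D := g + 1) q)) ^ 2) * 2 := by ring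
    rw [h6]
    exact dvd_sub (hy.mul_right _) (hd.mul_right _)
  · intro k _ _ x' y' hx' hs
    have h2 := two_ne (k := k) l hl hl2
    have h6 : Sing (n := 0) (d := 2 * g + 2) (fun m => ((FM q p m : ℤ) : k)) x' := by
      rw [FM_cast]
      exact sing_of_singB _ _ x' y' hs
    have h7 := h5 k x' h6 1
    refine ⟨h7, ?_⟩
    have h8 := hs.2.1
    rw [bf_homog (D := g + 1) (fun i => ((q i : ℤ) : k)) x' (x' 0) ((x 1 : ℤ) : k) rfl h7
      (fun i => ((x i : ℤ) : k)) (by simp [hx0]) rfl, ← eval_cast] at h8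
    have h9 : ((2 * y + eval x (bf (D := g + 1) q) : ℤ) : k) = 0 :=
      (CharP.intCast_eq_zero_iff k l _).2 hy
    push_cast at h9
    apply mul_left_cancel₀ h2
    linear_combination h8 - x' 0 ^ (g + 1) * h9

end Pool.Agent.Run7.h802.FH
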