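import Pool.Agent.Run7.h802.FH.Core
import Pool.Agent.Run7.h802.HP.All
import Pool.Agent.Run7.h212.FH.VOL
import Pool.Agent.Run7.h216.FH.PLA
import Pool.Agent.Run7.h771.FH.RADN
import Pool.Agent.Run7.h802.FH.RadPiece
import Pool.Agent.Run7.h321.FH.MAC
import Pool.Agent.Run7.h321.FH.RES

/-! Project FH: all pieces together (helper212, helper216, helper771, helper799, helper321, and the
pieces of project HP). -/

set_option autoImplicit false

namespace Pool.Agent.Run7.h802.FH

open Pool.Agent.Run7.h802.HP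

theorem allRes : S_RES :=
  Pool.Agent.Run7.h321.FH.t_RES Run7.h590.HP.min Pool.Agent.Run7.h115.HPE.elim
    Pool.Agent.Run7.h321.FH.t_MAC

theorem allRad : S_RAD := RadPiece.t_RAD _root_.Run7.h771.FH.t_RADN

theorem allDen : S_DEN :=
  t_DEN (Pool.Agent.Run7.h468.HP.count Pool.Agent.Run7.h115.HPE.elim)
    Pool.Agent.Run7.h468.HP.ZERO (Pool.Agent.Run7.h216.BP.pts Pool.Agent.Run7.h882.HP.newton)

end Pool.Agent.Run7.h802.FH
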