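import Pool.Agent.Run7.h802.FH.Main

/-! Project FH: plane curves. -/

set_option autoImplicit false

namespace Pool.Agent.Run7.h802.FH

open MvPolynomial MeasureTheory Pool.Agent.Run7.h802.HP Pool.Agent.Run7.h796.HP

theorem card_Idx (d : ℕ) (hd : 3 ≤ d) :
    (Fintype.card (Idx d) : ℝ) = ((d : ℝ) - 1) * ((d : ℝ) - 2) / 2 := by
  classical
  obtain ⟨e, rfl⟩ : ∃ e, d = e + 2 := ⟨d - 2, by omega⟩
  have h1 : Fintype.card (Idx (e + 2)) = ∑ i ∈ Finset.range e, (e - i) := by
    rw [Fintype.card_subtype]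
    have h2 : (Finset.univ.filter fun s : Fin (e + 2) × Fin (e + 2) =>
        (s.1 : ℕ) + s.2 + 3 ≤ e + 2).card =
        ∑ i : Fin (e + 2), (Finset.univ.filter fun j : Fin (e + 2) =>
          (i : ℕ) + j + 3 ≤ e + 2).card := by
      rw [Finset.card_filter, Fintype.sum_prod_type]
      refine Finset.sum_congr rfl fun i _ => ?_
      rw [Finset.card_filter]
    rw [h2]
    have h3 : ∀ i : Fin (e + 2), (Finset.univ.filter fun j : Fin (e + 2) =>
          (i : ℕ) + j + 3 ≤ e + 2).card = e - i := by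
      intro i
      have h4 : (Finset.univ.filter fun j : Fin (e + 2) => (i : ℕ) + j + 3 ≤ e + 2) =
          Finset.univ.filter fun j : Fin (e + 2) => (j : ℕ) < e - i := by
        ext j
        simp only [Finset.mem_filter, Finset.mem_univ, true_and]
        omega
      rw [h4]
      rw [Fin.card_filter_val_lt]
      omega
    simp only [h3]
    rw [Fin.sum_univ_eq_sum_range (fun i => e - i) (e + 2), Finset.sum_range_succ,
      Finset.sum_range_succ]
    omega
  have h6 : ∀ e : ℕ, ((∑ i ∈ Finset.range e, (e - i) : ℕ) : ℝ) = (e : ℝ) * (e + 1) / 2 := by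
    intro e
    induction e with
    | zero => simp
    | succ e ih =>
      rw [Finset.sum_range_succ']
      have : ∑ k ∈ Finset.range e, (e + 1 - (k + 1)) = ∑ k ∈ Finset.range e, (e - k) := by
        refine Finset.sum_congr rfl fun k _ => ?_
        omega
      rw [this]
      push_cast at ih ⊢
      rw [ih]
      try simp only [Nat.sub_zero]
      push_cast
      ring
  rw [h1, h6]
  push_cast
  ring

/-- The height of the plane curve. -/
noncomputable def faltP {d : ℕ} (a : Mon 1 d → ℤ) : ℝ :=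
  Real.log ((volume {v : Idx d → ℝ | energyP a v ≤ 1}).toReal /
    (volume {v : Idx d → ℝ | ∑ s, v s ^ 2 ≤ 1}).toReal)

theorem faltP_le (hV : S_VOL) (hP : S_PLA) (d : ℕ) (hd : 3 ≤ d) : ∃ C₀ : ℝ,
    ∀ (a : Mon 1 d → ℤ) (M : ℝ), 1 ≤ M → GenSmooth a → (∀ m, |(a m : ℝ)| ≤ M) →
      faltP a ≤ ((d : ℝ) - 1) * ((d : ℝ) - 2) / 2 * Real.log M + C₀ := by
  obtain ⟨κ, hκ0, hκ1, hκ⟩ := hP d hd
  refine ⟨(Fintype.card (Idx d) : ℝ) / 2 * Real.log (1 / κ), fun a M hM hsm ha => ?_⟩
  have hM0 : 0 < M := by linarith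
  have h1 := hV (Idx d) (energyP a) (κ / M ^ 2) (by positivity) ?_
    (fun v => hκ a hsm M hM ha v)
  · refine h1.trans (le_of_eq ?_)
    have h2 : 1 / (κ / M ^ 2) = M ^ 2 * (1 / κ) := by field_simp
    rw [h2, Real.log_mul (by positivity) (by positivity), Real.log_pow, ← card_Idx d hd]
    push_cast
    ring
  · rw [div_le_one (by positivity)]
    nlinarith

end Pool.Agent.Run7.h802.FH
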