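import Pool.Agent.Run7.h802.FH.PlaneFin

/-! Project FH: plane curves, the main theorem in the notation of the project. -/

set_option autoImplicit false

namespace Pool.Agent.Run7.h802.FH

open MvPolynomial MeasureTheory Pool.Agent.Run7.h802.HP Pool.Agent.Run7.h796.HP

theorem plane_main (hRES : S_RES) (hRAD : S_RAD) (hDEN : S_DEN) (hV : S_VOL) (hP : S_PLA)
    (hSm : S_SMOOTH) (d : ℕ) (hd : 3 ≤ d) (ε : ℝ) (hε : 0 < ε) :
    (∃ C η : ℝ, 0 < η ∧ ∀ H : ℕ, 1 ≤ H →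
      (Nat.card {a : Mon 1 d → ℤ // (∀ m, |a m| ≤ H) ∧
        (GenSmooth a ∧ ¬ Bd faltP (((d : ℝ) - 1) * ((d : ℝ) - 2) / 2 + ε) a)} : ℝ) ≤
          C * (H : ℝ) ^ ((Fintype.card (Mon 1 d) : ℝ) - η)) ∧
    (∀ ε₁ : ℝ, 0 < ε₁ → ∃ B : ℕ, ∀ Q : ℕ, 0 < Q → (∀ p : ℕ, p.Prime → p ≤ B → p ∣ Q) →
      ∀ c : Mon 1 d → ℤ, (∀ p : ℕ, p.Prime → p ∣ Q → GoodAt c p) → ∃ H₀ : ℕ, ∀ H : ℕ, H₀ ≤ H →
        (1 - ε₁) * (2 * (H : ℝ) + 1) ^ Fintype.card (Mon 1 d) ≤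
          (Nat.card {b : Mon 1 d → ℤ // (∀ m, |b m| ≤ H) ∧
            (GenSmooth (fun m => c m + Q * b m) ∧
            (∀ p : ℕ, p.Prime → GoodAt (fun m => c m + Q * b m) p ∨
              NodeAt (fun m => c m + Q * b m) p) ∧
            Bd faltP (((d : ℝ) - 1) * ((d : ℝ) - 2) / 2 + ε) (fun m => c m + Q * b m))} : ℝ)) ∧
    ∃ δ : ℝ, 0 < δ ∧ ∃ H₀ : ℕ, ∀ H : ℕ, H₀ ≤ H →
      δ * (2 * (H : ℝ) + 1) ^ Fintype.card (Mon 1 d) ≤
        (Nat.card {a : Mon 1 d → ℤ // (∀ m, |a m| ≤ H) ∧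
          (GenSmooth a ∧ (∀ p : ℕ, p.Prime → GoodAt a p ∨ NodeAt a p) ∧
            Bd faltP (((d : ℝ) - 1) * ((d : ℝ) - 2) / 2 + ε) a)} : ℝ) := by
  classical
  obtain ⟨h, g, r, M₀, hh, hrel, p1, p2, hconst, hres⟩ := hRES 1 d hd
  obtain ⟨C₀, hC₀⟩ := faltP_le hV hP d hd
  have hz : ∀ (k : Type) [Field k] (a : Mon 1 d → k) (x : Fin (1 + 2) → k), x ≠ 0 → Sing a x →
      aeval a h = 0 := fun k _ a x hx hs => (p1 k a x hx hs).1
  have hκ : (0 : ℝ) ≤ ((d : ℝ) - 1) * ((d : ℝ) - 2) / 2 := by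
    have : (3 : ℝ) ≤ d := by exact_mod_cast hd
    have h1 : (0 : ℝ) ≤ (d : ℝ) - 1 := by linarith
    have h2 : (0 : ℝ) ≤ (d : ℝ) - 2 := by linarith
    positivity
  have hcl : ∀ ε₁ : ℝ, 0 < ε₁ → ∃ B : ℕ, ∀ Q : ℕ, 0 < Q →
      (∀ p : ℕ, p.Prime → p ≤ B → p ∣ Q) →
      ∀ c : Mon 1 d → ℤ, (∀ p : ℕ, p.Prime → p ∣ Q → GoodAt c p) → ∃ H₀ : ℕ, ∀ H : ℕ, H₀ ≤ H →
        (1 - ε₁) * (2 * (H : ℝ) + 1) ^ Fintype.card (Mon 1 d) ≤
          (Nat.card {b : Mon 1 d → ℤ // (∀ m, |b m| ≤ H) ∧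
            (GenSmooth (fun m => c m + Q * b m) ∧
            (∀ p : ℕ, p.Prime → GoodAt (fun m => c m + Q * b m) p ∨
              NodeAt (fun m => c m + Q * b m) p) ∧
            Bd faltP (((d : ℝ) - 1) * ((d : ℝ) - 2) / 2 + ε) (fun m => c m + Q * b m))} : ℝ) := by
    intro ε₁ hε₁
    obtain ⟨B, hB⟩ := classes h M₀ hconst hres hz faltP _ C₀ hκ hC₀ hRAD hDEN hh g r hrel p1 p2
      ε hε ε₁ hε₁
    refine ⟨B, fun Q hQ hQB c hc => ?_⟩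
    obtain ⟨H₀, hH₀⟩ := hB Q hQ hQB c
    refine ⟨H₀, fun H hH => (hH₀ H hH).trans ?_⟩
    apply nat_mono
    intro b _ hb
    refine ⟨hb.2.1, fun p hp => ?_, hb.2.2.2⟩
    by_cases hpQ : p ∣ Q
    · left
      refine good_congr c _ p (fun m => ?_) (hc p hp hpQ)
      have : (p : ℤ) ∣ (Q : ℤ) := by exact_mod_cast hpQ
      simpa using this.mul_right (b m)
    · exact hb.2.2.1 p hp hpQ
  refine ⟨?_, hcl, ?_⟩
  · obtain ⟨C, η, hη, hs⟩ := saving h M₀ hconst hres hz faltP _ C₀ hκ hC₀ hRAD 1 one_pos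
      (fun _ => 0) ε hε
    refine ⟨C, η, hη, fun H hH => ?_⟩
    have := hs H hH
    simpa using this
  · obtain ⟨B, hB⟩ := hcl (1 / 2) (by norm_num)
    choose a ha using fun p : ℕ => fun hp : p.Prime => hSm 1 d le_rfl hd p hp
    obtain ⟨c, hc⟩ := crt (ι := Mon 1 d) (fun p m => if hp : p.Prime then a p hp m else 0)
      ((Finset.range (B + 1)).filter Nat.Prime) (fun p hp => (Finset.mem_filter.1 hp).2)
    have hQ0 : 0 < B.factorial := Nat.factorial_pos B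
    have hgood : ∀ p : ℕ, p.Prime → p ∣ B.factorial → GoodAt c p := by
      intro p hp hpQ
      have hpB : p ≤ B := (hp.dvd_factorial).1 hpQ
      have hmem : p ∈ (Finset.range (B + 1)).filter Nat.Prime := by
        simp only [Finset.mem_filter, Finset.mem_range]
        exact ⟨by omega, hp⟩
      have h1 := hc p hmem
      simp only [hp, dif_pos] at h1
      exact good_congr (a p hp) c p h1 (ha p hp)
    obtain ⟨H₀, hH₀⟩ := hB B.factorial hQ0 (fun p hp hpB => (hp.dvd_factorial).2 hpB) c hgood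
    refine pos_of_class (fun a : Mon 1 d → ℤ => GenSmooth a ∧
      (∀ p : ℕ, p.Prime → GoodAt a p ∨ NodeAt a p) ∧
      Bd faltP (((d : ℝ) - 1) * ((d : ℝ) - 2) / 2 + ε) a) B.factorial hQ0 c H₀ ?_
    intro H hH
    have := hH₀ H hH
    norm_num at this ⊢
    exact this

end Pool.Agent.Run7.h802.FH
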